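import Pool.Agent.Y782.TC.Toast

set_option autoImplicit false
open Relation

namespace Pool.Agent.Y782.TC

open Pool.Agent.Y782.FF

variable {d : ℕ}

/-! ### Levels -/

/-- `x` is covered -/
def Cov (M : ℕ) (s : Sd d) (x : V d) : Prop := ∃ n, KK M s (n + 1) x

/-- `x` has level `n` -/
def Lv (M : ℕ) (s : Sd d) (n : ℕ) (x : V d) : Prop := KK M s (n + 1) x ∧ ¬ KK M s n x

lemma Lv_unique {M : ℕ} {s : Sd d} {n m : ℕ} {x : V d} (h : Lv M s n x) (h' : Lv M s m x) :
    n = m := by
  rcases lt_trichotomy n m with hlt | heq | hlt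
  · exact absurd (KK_mono (Nat.succ_le_of_lt hlt) h.1) h'.2
  · exact heq
  · exact absurd (KK_mono (Nat.succ_le_of_lt hlt) h'.1) h.2

lemma exists_Lv {M : ℕ} {s : Sd d} {n : ℕ} {x : V d} (h : KK M s n x) :
    ∃ m < n, Lv M s m x := by
  induction n with
  | zero => exact (show False from h).elim
  | succ n ih =>
    by_cases hn : KK M s n x
    · obtain ⟨m, hm, h2⟩ := ih hn
      exact ⟨m, by omega, h2⟩
    · exact ⟨n, Nat.lt_succ_self n, h, hn⟩

/-! ### Phases -/

open Classical in
/-- least element of a set of integers, if any -/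
noncomputable def lst (T : Set ℤ) : ℤ := if h : ∃ m, IsLeast T m then h.choose else 0

lemma lst_eq {T : Set ℤ} {m : ℤ} (h : IsLeast T m) : lst T = m := by
  unfold lst
  rw [dif_pos ⟨m, h⟩]
  exact (Exists.choose_spec (p := fun m => IsLeast T m) ⟨m, h⟩).unique h

/-- coordinate sum -/
def sm (u : V d) : ℤ := ∑ i, u i

lemma sm_add (u v : V d) : sm (u + v) = sm u + sm v := by
  simp [sm, Finset.sum_add_distrib]

lemma sm_sub (u v : V d) : sm (u - v) = sm u - sm v := by
  simp [sm, Finset.sum_sub_distrib]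

lemma sm_neg (u : V d) : sm (-u) = - sm u := by
  simp [sm, Finset.sum_neg_distrib]

/-- displacement to a raw point nearby -/
noncomputable def pw (M : ℕ) (s : Sd d) (n : ℕ) (x : V d) : V d :=
  pick (fun w => w ∈ bx d (Dm M n + 9) ∧ Aset M s n (x + w))

/-- relative coordinate sums of the signature -/
def Trel (M : ℕ) (s : Sd d) (n : ℕ) (x p : V d) : Set ℤ :=
  {t | ∃ u, s n (x + u) = true ∧ p - u ∈ bx d (rho M n - ww M n) ∧ t = sm u}

/-- the phase -/
noncomputable def ph (M : ℕ) (s : Sd d) (n : ℕ) (x : V d) : ℤ :=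
  lst (Trel M s n x (pw M s n x))

lemma pw_spec {M : ℕ} (hM : 48 ≤ M) {s : Sd d} {n : ℕ} {x : V d} (h : Lv M s n x) :
    pw M s n x ∈ bx d (Dm M n + 9) ∧ Aset M s n (x + pw M s n x) := by
  unfold pw
  refine pick_spec (P := fun w => w ∈ bx d (Dm M n + 9) ∧ Aset M s n (x + w)) ?_
  obtain ⟨a, ha, hxa⟩ := QQ_near (diam_all hM s n) ((KK_succ.1 h.1).resolve_left h.2)
  refine ⟨a - x, ?_, ?_⟩
  · rw [← neg_sub]; exact bx_neg hxa
  · rw [add_sub_cancel]; exact ha

lemma Trel_least {M : ℕ} {s : Sd d} {n : ℕ} {x p : V d} (h : Aset M s n (x + p)) :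
    ∃ m, IsLeast (Trel M s n x p) m := by
  classical
  obtain ⟨c, hc, hcb⟩ := h.1
  have hfin : (Trel M s n x p).Finite := by
    apply Set.Finite.subset ((bx d (rho M n - ww M n)).finite_toSet.image (fun w => sm (p - w)))
    rintro t ⟨u, _, hu, rfl⟩
    refine ⟨p - u, hu, ?_⟩
    show sm (p - (p - u)) = sm u
    rw [sub_sub_cancel]
  have hne : (Trel M s n x p).Nonempty := by
    refine ⟨sm (c - x), c - x, ?_, ?_, rfl⟩
    · rw [add_sub_cancel]; exact hc
    · have : p - (c - x) = x + p - c := by abel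
      rw [this]; exact hcb
  obtain ⟨m, hm, hle⟩ := Set.exists_min_image _ id hfin hne
  exact ⟨m, hm, fun t ht => hle t ht⟩

/-- Phases of nearby points of the same level are compatible. -/
lemma ph_close {M : ℕ} (hM : 48 ≤ M) {s : Sd d} {n : ℕ} {x z : V d} (hx : Lv M s n x)
    (hz : Lv M s n z) (h : z - x ∈ bx d 3) : ph M s n z + sm z = ph M s n x + sm x := by
  obtain ⟨hx1, hx2⟩ := pw_spec hM hx
  obtain ⟨hz1, hz2⟩ := pw_spec hM hz
  have hsame : Same M s n (x + pw M s n x) (z + pw M s n z) := by
    apply same_of_close hM hx2 hz2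
    have : x + pw M s n x - (z + pw M s n z) = -(z - x) + pw M s n x + -(pw M s n z) := by abel
    rw [this]
    unfold ww
    exact bx_mono (by omega) (bx_add (bx_add (bx_neg h) hx1) (bx_neg hz1))
  obtain ⟨m, hm⟩ := Trel_least hx2
  have hm' : IsLeast (Trel M s n z (pw M s n z)) (m + sm x - sm z) := by
    constructor
    · obtain ⟨u, hu1, hu2, hu3⟩ := hm.1
      refine ⟨x + u - z, ?_, ?_, ?_⟩
      · rw [add_sub_cancel]; exact hu1
      · have h1 : x + pw M s n x - (x + u) = pw M s n x - u := by abel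
        have h2 : z + pw M s n z - (x + u) = pw M s n z - (x + u - z) := by abel
        have := (hsame (x + u) hu1).1 (by rw [h1]; exact hu2)
        rwa [h2] at this
      · rw [sm_sub, sm_add, hu3]; ring
    · rintro t ⟨u, hu1, hu2, rfl⟩
      have h1 : z + pw M s n z - (z + u) = pw M s n z - u := by abel
      have h2 : x + pw M s n x - (z + u) = pw M s n x - (z + u - x) := by abel
      have h3 := (hsame (z + u) hu1).2 (by rw [h1]; exact hu2)
      rw [h2] at h3
      have h4 := hm.2 (show sm (z + u - x) ∈ Trel M s n x (pw M s n x) from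
        ⟨z + u - x, by rw [add_sub_cancel]; exact hu1, h3, rfl⟩)
      rw [sm_sub, sm_add] at h4
      linarith
  unfold ph
  rw [lst_eq hm, lst_eq hm']
  ring

/-! ### The colouring -/

open Classical in
/-- the level -/
noncomputable def lvl (M : ℕ) (s : Sd d) (x : V d) : ℕ :=
  if h : ∃ n, Lv M s n x then h.choose else 0

lemma lvl_eq {M : ℕ} {s : Sd d} {n : ℕ} {x : V d} (h : Lv M s n x) : lvl M s x = n := by
  unfold lvl
  rw [dif_pos ⟨n, h⟩]
  exact Lv_unique (Exists.choose_spec (p := fun n => Lv M s n x) ⟨n, h⟩) h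

/-- phase at the own level -/
noncomputable def phs (M : ℕ) (s : Sd d) (x : V d) : ℤ := ph M s (lvl M s x) x

/-- the phases at `x` and `x+w` disagree -/
def Mis (M : ℕ) (s : Sd d) (x w : V d) : Prop := ¬ (phs M s (x + w) + sm w - phs M s x) % 2 = 0

/-- there is an old point with the wrong phase at distance at most `r` -/
def NN (M : ℕ) (s : Sd d) (r n : ℕ) (x : V d) : Prop :=
  ∃ w ∈ bx d r, KK M s n (x + w) ∧ Mis M s x w

open Classical in
/-- the colour of a point of level `n` -/
noncomputable def rule (M : ℕ) (s : Sd d) (n : ℕ) (x : V d) : Fin 3 :=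
  if NN M s 1 n x then (if phs M s x % 2 = 0 then 2 else 0)
  else if NN M s 2 n x then (if phs M s x % 2 = 0 then 2 else 1)
  else (if phs M s x % 2 = 0 then 0 else 1)

open Classical in
/-- the colouring -/
noncomputable def col (M : ℕ) (s : Sd d) (x : V d) : Fin 3 :=
  if Cov M s x then rule M s (lvl M s x) x else 0

lemma col_of_Lv {M : ℕ} {s : Sd d} {n : ℕ} {x : V d} (h : Lv M s n x) :
    col M s x = rule M s n x := by
  unfold col
  rw [if_pos ⟨n, h.1⟩, lvl_eq h]

lemma not_mis_of_same {M : ℕ} (hM : 48 ≤ M) {s : Sd d} {n : ℕ} {x w : V d} (hx : Lv M s n x)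
    (hz : Lv M s n (x + w)) (hw : w ∈ bx d 3) : phs M s (x + w) + sm w = phs M s x := by
  have h := ph_close hM hx hz (by rwa [add_sub_cancel_left])
  unfold phs
  rw [lvl_eq hx, lvl_eq hz]
  rw [sm_add] at h
  linarith

/-- three nearby points do not have three distinct levels, with the top one isolated -/
lemma two_levels {M : ℕ} {s : Sd d} {i j k : ℕ} {u x v : V d} (hu : Lv M s i u) (hx : Lv M s j x)
    (hv : Lv M s k v) (hij : i < j) (hux : u - x ∈ bx d 3) (hvu : v - u ∈ bx d 3) : k ≤ j := by
  have h := collar hx.1 hx.2 (KK_mono (Nat.succ_le_of_lt hij) hu.1) hux hvu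
  obtain ⟨m, hm, h2⟩ := exists_Lv h
  rw [Lv_unique hv h2]
  omega

lemma even_or_odd_mod (a : ℤ) : a % 2 = 0 ∨ a % 2 = 1 := by omega

lemma col_same {M : ℕ} (hM : 48 ≤ M) {s : Sd d} {n : ℕ} {x w : V d} (hx : Lv M s n x)
    (hz : Lv M s n (x + w)) (hw : w ∈ bx d 1) (hodd : sm w % 2 = 1) :
    col M s x ≠ col M s (x + w) := by
  have h0 := not_mis_of_same hM hx hz (bx_mono (by norm_num) hw)
  rw [col_of_Lv hx, col_of_Lv hz]
  -- transfer of NN 1 at one point to NN 2 at the other
  have tr : NN M s 1 n (x + w) → NN M s 2 n x := by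
    rintro ⟨t, ht, hK, hmis⟩
    refine ⟨w + t, bx_mono (by norm_num) (bx_add hw ht), by rwa [← add_assoc], ?_⟩
    unfold Mis at *
    rw [← add_assoc, sm_add]
    intro h
    apply hmis
    rw [← h]
    congr 1
    linarith
  have tr' : NN M s 1 n x → NN M s 2 n (x + w) := by
    rintro ⟨t, ht, hK, hmis⟩
    refine ⟨-w + t, bx_mono (by norm_num) (bx_add (bx_neg hw) ht), ?_, ?_⟩
    · have : x + w + (-w + t) = x + t := by abel
      rw [this]; exact hK
    · unfold Mis at *
      have : x + w + (-w + t) = x + t := by abel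
      rw [this, sm_add, sm_neg]
      intro h
      apply hmis
      rw [← h]
      congr 1
      linarith
  unfold rule
  rcases even_or_odd_mod (phs M s x) with hp | hp
  · have hq : phs M s (x + w) % 2 ≠ 0 := by omega
    rw [if_pos hp, if_pos hp, if_pos hp, if_neg hq, if_neg hq, if_neg hq]
    by_cases h1 : NN M s 1 n x
    · rw [if_pos h1]; split_ifs <;> decide
    · rw [if_neg h1]
      by_cases h2 : NN M s 2 n x
      · rw [if_pos h2]; split_ifs <;> decide
      · rw [if_neg h2, if_neg (fun h => h2 (tr h))]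
        split_ifs <;> decide
  · have hp' : ¬ phs M s x % 2 = 0 := by omega
    have hq : phs M s (x + w) % 2 = 0 := by omega
    rw [if_neg hp', if_neg hp', if_neg hp', if_pos hq, if_pos hq, if_pos hq]
    by_cases h1 : NN M s 1 n (x + w)
    · rw [if_pos h1]; split_ifs <;> decide
    · rw [if_neg h1]
      by_cases h2 : NN M s 2 n (x + w)
      · rw [if_pos h2]; split_ifs <;> decide
      · rw [if_neg h2, if_neg (fun h => h2 (tr' h))]
        split_ifs <;> decide

lemma col_diff {M : ℕ} (hM : 48 ≤ M) {s : Sd d} {n m : ℕ} {x w : V d} (hx : Lv M s n x)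
    (hz : Lv M s m (x + w)) (hnm : m < n) (hw : w ∈ bx d 1) (hodd : sm w % 2 = 1) :
    col M s x ≠ col M s (x + w) := by
  rw [col_of_Lv hx, col_of_Lv hz]
  -- no old points near `x + w`
  have hz2 : ∀ t ∈ bx d 2, ¬ KK M s m (x + w + t) := by
    intro t ht hK
    obtain ⟨i, hi, hLi⟩ := exists_Lv hK
    have := two_levels hLi hz hx hi (by
        rw [add_sub_cancel_left]; exact bx_mono (by norm_num) ht) (by
        have : x - (x + w + t) = -(w + t) := by abel
        rw [this]; exact bx_mono (by norm_num) (bx_neg (bx_add hw ht)))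
    omega
  have hflat : rule M s m (x + w) = if phs M s (x + w) % 2 = 0 then 0 else 1 := by
    unfold rule
    rw [if_neg, if_neg]
    · rintro ⟨t, ht, hK, -⟩; exact hz2 t ht hK
    · rintro ⟨t, ht, hK, -⟩; exact hz2 t (bx_mono (by norm_num) ht) hK
  -- all old points near `x` have level `m` and the phase of `x + w`
  have hold : ∀ t ∈ bx d 2, KK M s n (x + t) →
      phs M s (x + t) + sm t = phs M s (x + w) + sm w := by
    intro t ht hK
    obtain ⟨i, hi, hLi⟩ := exists_Lv hK
    have him : i = m := by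
      rcases lt_trichotomy i m with h | h | h
      · exfalso
        have := two_levels hLi hz hx h (by
          have : x + t - (x + w) = t - w := by abel
          rw [this]; exact bx_mono (by norm_num) (bx_sub ht hw)) (by
          have : x - (x + t) = -t := by abel
          rw [this]; exact bx_mono (by norm_num) (bx_neg ht))
        omega
      · exact h
      · exfalso
        have := two_levels hz hLi hx h (by
          have : x + w - (x + t) = w - t := by abel
          rw [this]; exact bx_mono (by norm_num) (bx_sub hw ht)) (by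
          have : x - (x + w) = -w := by abel
          rw [this]; exact bx_mono (by norm_num) (bx_neg hw))
        omega
    subst him
    have h1 := not_mis_of_same hM (x := x + w) (w := t - w) hz (by
      have : x + w + (t - w) = x + t := by abel
      rw [this]; exact hLi) (bx_mono (by norm_num) (bx_sub ht hw))
    have h2 : x + w + (t - w) = x + t := by abel
    rw [h2, sm_sub] at h1
    linarith
  rw [hflat]
  unfold rule
  have hKz : KK M s n (x + w) := KK_mono (Nat.succ_le_of_lt hnm) hz.1
  by_cases hmis : Mis M s x w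
  · have hN1 : NN M s 1 n x := ⟨w, hw, hKz, hmis⟩
    rw [if_pos hN1]
    unfold Mis at hmis
    rcases even_or_odd_mod (phs M s x) with hp | hp
    · have hq : phs M s (x + w) % 2 = 0 := by omega
      rw [if_pos hp, if_pos hq]; decide
    · have hp' : ¬ phs M s x % 2 = 0 := by omega
      have hq : ¬ phs M s (x + w) % 2 = 0 := by omega
      rw [if_neg hp', if_neg hq]; decide
  · have hN2 : ¬ NN M s 2 n x := by
      rintro ⟨t, ht, hK, hm⟩
      apply hmis
      unfold Mis at *
      rw [← hold t ht hK]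
      exact hm
    have hN1 : ¬ NN M s 1 n x := by
      rintro ⟨t, ht, hK, hm⟩
      exact hN2 ⟨t, bx_mono (by norm_num) ht, hK, hm⟩
    rw [if_neg hN1, if_neg hN2]
    unfold Mis at hmis
    rw [not_not] at hmis
    rcases even_or_odd_mod (phs M s x) with hp | hp
    · have hq : ¬ phs M s (x + w) % 2 = 0 := by omega
      rw [if_pos hp, if_neg hq]; decide
    · have hp' : ¬ phs M s x % 2 = 0 := by omega
      have hq : phs M s (x + w) % 2 = 0 := by omega
      rw [if_neg hp', if_pos hq]; decide

/-- The colouring is proper when everything is covered. -/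
theorem col_proper {M : ℕ} (hM : 48 ≤ M) {s : Sd d} (hcov : ∀ x, Cov M s x) {x w : V d}
    (hw : w ∈ bx d 1) (hodd : sm w % 2 = 1) : col M s x ≠ col M s (x + w) := by
  obtain ⟨n, hn⟩ := hcov x
  obtain ⟨m, hm⟩ := hcov (x + w)
  obtain ⟨n', _, hx⟩ := exists_Lv hn
  obtain ⟨m', _, hz⟩ := exists_Lv hm
  rcases lt_trichotomy n' m' with h | h | h
  · have h1 : x + w + -w = x := by abel
    have := col_diff hM (x := x + w) (w := -w) hz (by rw [h1]; exact hx) h (bx_neg hw)
      (by rw [sm_neg]; omega)
    rw [h1] at this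
    exact this.symm
  · subst h
    exact col_same hM hx hz hw hodd
  · exact col_diff hM hx hz h hw hodd

end Pool.Agent.Y782.TC
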