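import Pool.Agent.Y782.TC.Gen

set_option autoImplicit false
open MeasureTheory
open scoped ENNReal

namespace Pool.Agent.Y782.TC

open Pool.Agent.Y782.FF

variable {d : ℕ} {T : Type*} [MeasurableSpace T]

/-- depends only on the labels in the box of radius `r` -/
def Lc {X : Type*} (r : ℕ) (u : (V d → X) → ℤ) : Prop :=
  ∀ z z' : V d → X, (∀ v ∈ bx d r, z v = z' v) → u z = u z'

variable (ν : Measure T) [IsProbabilityMeasure ν]

lemma meas_pair {u v : (V d → T) → ℤ} (hu : Measurable u) (hv : Measurable v) (A : Set (ℤ × ℤ)) :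
    MeasurableSet {p : (V d → T) × (V d → T) | (u p.1, v p.2) ∈ A} := by
  have h : Measurable fun p : (V d → T) × (V d → T) => (u p.1, v p.2) :=
    (hu.comp measurable_fst).prodMk (hv.comp measurable_snd)
  exact h (Set.to_countable A).measurableSet

lemma ind {r : ℕ} {u v : (V d → T) → ℤ} (hu : Measurable u) (hv : Measurable v) (lu : Lc r u)
    (lv : Lc r v) {w : V d} (hw : w ∉ bx d (r + r)) (A : Set (ℤ × ℤ)) :
    mq d ν {z | (u z, v (ts w z)) ∈ A} =
      ((mq d ν).prod (mq d ν)) {p | (u p.1, v p.2) ∈ A} := by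
  have hE : MeasurableSet {z : V d → T | (u z, v (ts w z)) ∈ A} := by
    have h : Measurable fun z : V d → T => (u z, v (ts w z)) :=
      hu.prodMk (hv.comp (measurable_shq w))
    exact h (Set.to_countable A).measurableSet
  rw [← (mp_mg ν ((bx d r : Finset (V d)) : Set (V d))).measure_preimage hE.nullMeasurableSet]
  have h1 : (fun p : (V d → T) × (V d → T) => mg ((bx d r : Finset (V d)) : Set (V d)) p.1 p.2) ⁻¹'
      {z : V d → T | (u z, v (ts w z)) ∈ A} =
      (Prod.map id (ts w)) ⁻¹' {p : (V d → T) × (V d → T) | (u p.1, v p.2) ∈ A} := by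
    ext p
    show (u (mg _ p.1 p.2), v (ts w (mg _ p.1 p.2))) ∈ A ↔ (u p.1, v (ts w p.2)) ∈ A
    have e1 : u (mg ((bx d r : Finset (V d)) : Set (V d)) p.1 p.2) = u p.1 := by
      apply lu
      intro q hq
      exact mg_mem (by exact_mod_cast hq)
    have e2 : v (ts w (mg ((bx d r : Finset (V d)) : Set (V d)) p.1 p.2)) = v (ts w p.2) := by
      apply lv
      intro q hq
      rw [ts_apply, ts_apply]
      apply mg_not
      intro hmem
      apply hw
      have h2 : w = (q + w) - q := by abel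
      rw [h2]
      exact bx_sub (by exact_mod_cast hmem) hq
    rw [e1, e2]
  rw [h1]
  exact ((MeasurePreserving.id (mq d ν)).prod (mp_shq ν w)).measure_preimage
    (meas_pair hu hv A).nullMeasurableSet

/-- union bound -/
lemma ap_and {η η' : ℝ≥0∞} {P Q : (V d → T) → Prop} (h1 : mq d ν {z | ¬ P z} ≤ η)
    (h2 : mq d ν {z | ¬ Q z} ≤ η') : mq d ν {z | ¬ (P z ∧ Q z)} ≤ η + η' := by
  refine (measure_mono (t := {z | ¬ P z} ∪ {z | ¬ Q z}) ?_).trans
    ((measure_union_le _ _).trans (add_le_add h1 h2))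
  intro z hz
  by_contra hcon
  apply hz
  constructor
  · by_contra h; exact hcon (Or.inl h)
  · by_contra h; exact hcon (Or.inr h)

lemma ap_mono {η : ℝ≥0∞} {P Q : (V d → T) → Prop} (h1 : mq d ν {z | ¬ P z} ≤ η)
    (h : ∀ z, P z → Q z) : mq d ν {z | ¬ Q z} ≤ η :=
  (measure_mono (s := {z | ¬ Q z}) (t := {z | ¬ P z}) fun z hz hP => hz (h z hP)).trans h1

lemma ap_ex {η : ℝ≥0∞} {P : (V d → T) → Prop} (h1 : mq d ν {z | ¬ P z} ≤ η) (h : η < 1) :
    ∃ z, P z := by
  by_contra hcon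
  push Not at hcon
  have : {z : V d → T | ¬ P z} = Set.univ := by
    ext z; exact ⟨fun _ => trivial, fun _ => hcon z⟩
  rw [this, measure_univ] at h1
  exact absurd h (not_lt.2 h1)

lemma ap_ts {η : ℝ≥0∞} {P : (V d → T) → Prop} (hm : MeasurableSet {z : V d → T | ¬ P z})
    (h1 : mq d ν {z | ¬ P z} ≤ η) (w : V d) : mq d ν {z | ¬ P (ts w z)} ≤ η := by
  have := (mp_shq ν w).measure_preimage hm.nullMeasurableSet
  calc mq d ν {z | ¬ P (ts w z)} = mq d ν (ts w ⁻¹' {z : V d → T | ¬ P z}) := rfl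
    _ = mq d ν {z : V d → T | ¬ P z} := this
    _ ≤ η := h1

lemma ap_ts' {η : ℝ≥0∞} {P : (V d → T) → Prop} (hm : MeasurableSet {z : V d → T | ¬ P z})
    (w : V d) (h1 : mq d ν {z | ¬ P (ts w z)} ≤ η) : mq d ν {z | ¬ P z} ≤ η := by
  have := (mp_shq ν w).measure_preimage hm.nullMeasurableSet
  calc mq d ν {z | ¬ P z} = mq d ν (ts w ⁻¹' {z : V d → T | ¬ P z}) := this.symm
    _ ≤ η := h1

/-- If two independent quantities almost agree, both are almost constant. -/
lemma lc {r : ℕ} {u v : (V d → T) → ℤ} (hu : Measurable u) (hv : Measurable v) (lu : Lc r u)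
    (lv : Lc r v) {w : V d} (hw : w ∉ bx d (r + r)) {η : ℝ≥0∞}
    (h : mq d ν {z | ¬ u z = v (ts w z)} ≤ η) (hη : η + η + η < 1) :
    ∃ c : ℤ, mq d ν {z | ¬ u z = c} ≤ η ∧ mq d ν {z | ¬ v z = c} ≤ η := by
  set A : Set (ℤ × ℤ) := {p | ¬ p.1 = p.2} with hA
  have h1 : ((mq d ν).prod (mq d ν)) {p | (u p.1, v p.2) ∈ A} ≤ η := by
    rw [← ind ν hu hv lu lv hw A]
    exact h
  have hm := meas_pair hu hv A
  obtain ⟨z1, hz1⟩ : ∃ z1, mq d ν (Prod.mk z1 ⁻¹' {p : (V d → T) × (V d → T) |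
      (u p.1, v p.2) ∈ A}) ≤ η := by
    rw [Measure.prod_apply hm] at h1
    obtain ⟨z1, hz1⟩ := exists_le_lintegral (μ := mq d ν)
      (measurable_measure_prodMk_left (ν := mq d ν) hm).aemeasurable
    exact ⟨z1, hz1.trans h1⟩
  obtain ⟨z2, hz2⟩ : ∃ z2, mq d ν ((fun x => Prod.mk x z2) ⁻¹' {p : (V d → T) × (V d → T) |
      (u p.1, v p.2) ∈ A}) ≤ η := by
    rw [Measure.prod_apply_symm hm] at h1
    obtain ⟨z2, hz2⟩ := exists_le_lintegral (μ := mq d ν)
      (measurable_measure_prodMk_right (μ := mq d ν) hm).aemeasurable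
    exact ⟨z2, hz2.trans h1⟩
  have e1 : mq d ν {z | ¬ v z = u z1} ≤ η := by
    refine (measure_mono fun z hz => ?_).trans hz1
    exact fun h => hz h.symm
  have e2 : mq d ν {z | ¬ u z = v z2} ≤ η := hz2
  have hmv : MeasurableSet {z : V d → T | ¬ v z = u z1} :=
    (hv (measurableSet_singleton (u z1))).compl
  obtain ⟨z, ⟨a1, a2⟩, a3⟩ := ap_ex ν (ap_and ν (ap_and ν h (ap_ts ν hmv e1 w)) e2) hη
  refine ⟨u z1, ?_, e1⟩
  rw [← a2, ← a1, a3]
  exact e2

/-- symmetric comparison -/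
lemma half {r : ℕ} {u : (V d → T) → ℤ} (hu : Measurable u) (lu : Lc r u) {w : V d}
    (hw : w ∉ bx d (r + r)) :
    2 * mq d ν {z | u z < u (ts w z)} ≤ 1 ∧ 2 * mq d ν {z | u (ts w z) < u z} ≤ 1 := by
  set A : Set (ℤ × ℤ) := {p | p.1 < p.2} with hA
  set B : Set (ℤ × ℤ) := {p | p.2 < p.1} with hB
  have h1 : mq d ν {z | u z < u (ts w z)} =
    ((mq d ν).prod (mq d ν)) {p | (u p.1, u p.2) ∈ A} := ind ν hu hu lu lu hw A
  have h2 : mq d ν {z | u (ts w z) < u z} =
    ((mq d ν).prod (mq d ν)) {p | (u p.1, u p.2) ∈ B} := ind ν hu hu lu lu hw B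
  have hmA := meas_pair hu hu A
  have hmB := meas_pair hu hu B
  have h3 : ((mq d ν).prod (mq d ν)) {p | (u p.1, u p.2) ∈ A} =
      ((mq d ν).prod (mq d ν)) {p | (u p.1, u p.2) ∈ B} := by
    have := (Measure.measurePreserving_swap (μ := mq d ν) (ν := mq d ν)).measure_preimage
      hmB.nullMeasurableSet
    rw [← this]
    rfl
  have hdis : Disjoint {p : (V d → T) × (V d → T) | (u p.1, u p.2) ∈ A}
      {p : (V d → T) × (V d → T) | (u p.1, u p.2) ∈ B} := by
    rw [Set.disjoint_left]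
    intro p h4 h5
    have h4' : u p.1 < u p.2 := h4
    have h5' : u p.2 < u p.1 := h5
    exact absurd h4' (not_lt.2 h5'.le)
  have h4 := measure_union (μ := (mq d ν).prod (mq d ν)) hdis hmB
  have h5 : ((mq d ν).prod (mq d ν)) ({p : (V d → T) × (V d → T) | (u p.1, u p.2) ∈ A} ∪
      {p : (V d → T) × (V d → T) | (u p.1, u p.2) ∈ B}) ≤ 1 := prob_le_one
  rw [h4] at h5
  constructor
  · rw [h1, two_mul]
    nth_rw 2 [h3]
    exact h5
  · rw [h2, two_mul]
    nth_rw 1 [← h3]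
    exact h5

end Pool.Agent.Y782.TC
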