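import Pool.Agent.Y782.TC.Height
import Pool.Agent.Y782.TC.Indep

set_option autoImplicit false
open MeasureTheory
open scoped ENNReal

namespace Pool.Agent.Y782.TC

open Pool.Agent.Y782.FF

variable {d : ℕ} {T : Type*} [MeasurableSpace T]

/-- lattice points of a coordinate plane -/
def pt (i1 i2 : Fin d) (a b : ℕ) : V d :=
  fun i => if i = i1 then (a : ℤ) else if i = i2 then (b : ℤ) else 0

lemma pt_add (i1 i2 : Fin d) (a b a' b' : ℕ) :
    pt i1 i2 a b + pt i1 i2 a' b' = pt i1 i2 (a + a') (b + b') := by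
  funext i
  show pt i1 i2 a b i + pt i1 i2 a' b' i = _
  unfold pt
  split_ifs <;> push_cast <;> ring

lemma pt_zero (i1 i2 : Fin d) : pt i1 i2 0 0 = 0 := by
  funext i
  unfold pt
  split_ifs <;> rfl

lemma pt_adj1 (i1 i2 : Fin d) (a b : ℕ) :
    ∑ i, |pt i1 i2 a b i - pt i1 i2 (a + 1) b i| = 1 := by
  rw [Finset.sum_eq_single i1]
  · unfold pt
    rw [if_pos rfl, if_pos rfl]
    push_cast
    rw [show (a : ℤ) - (a + 1) = -1 by ring]
    rfl
  · intro i _ hi
    unfold pt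
    rw [if_neg hi, if_neg hi, sub_self, abs_zero]
  · intro h
    exact absurd (Finset.mem_univ _) h

lemma pt_adj2 {i1 i2 : Fin d} (h12 : i1 ≠ i2) (a b : ℕ) :
    ∑ i, |pt i1 i2 a b i - pt i1 i2 a (b + 1) i| = 1 := by
  rw [Finset.sum_eq_single i2]
  · unfold pt
    rw [if_neg h12.symm, if_neg h12.symm, if_pos rfl, if_pos rfl]
    push_cast
    rw [show (b : ℤ) - (b + 1) = -1 by ring]
    rfl
  · intro i _ hi
    unfold pt
    rw [if_neg hi, if_neg hi, sub_self, abs_zero]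
  · intro h
    exact absurd (Finset.mem_univ _) h

lemma pt_not_mem (i1 i2 : Fin d) {r a : ℕ} (h : 2 * r + 1 ≤ a) : pt i1 i2 a 0 ∉ bx d (r + r) := by
  intro hmem
  rw [mem_bx] at hmem
  have := hmem i1
  unfold pt at this
  rw [if_pos rfl, Nat.abs_cast] at this
  have h2 : a ≤ r + r := by exact_mod_cast this
  omega

lemma measurable_hs {Ω : Type*} [MeasurableSpace Ω] {G : Ω → ℕ → Fin 3}
    (h : ∀ t, Measurable fun z => G z t) (n : ℕ) : Measurable fun z => hs (G z) n := by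
  unfold hs
  refine Finset.measurable_sum _ fun t _ => ?_
  exact (measurable_of_countable (fun p : Fin 3 × Fin 3 => dh p.1 p.2)).comp
    ((h t).prodMk (h (t + 1)))

/-- height along the bottom row -/
def hD (i1 i2 : Fin d) (X : (V d → T) → Fin 3) (n : ℕ) (z : V d → T) : ℤ :=
  hs (fun t => X (ts (pt i1 i2 t 0) z)) n

/-- height along the row number `l` -/
def HT (i1 i2 : Fin d) (X : (V d → T) → Fin 3) (l n : ℕ) (z : V d → T) : ℤ :=
  hs (fun t => X (ts (pt i1 i2 t l) z)) n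

/-- height along the first column -/
def VV (i1 i2 : Fin d) (X : (V d → T) → Fin 3) (l : ℕ) (z : V d → T) : ℤ :=
  hs (fun t => X (ts (pt i1 i2 0 t) z)) l

lemma measurable_hD (i1 i2 : Fin d) {X : (V d → T) → Fin 3} (hX : Measurable X) (n : ℕ) :
    Measurable (hD i1 i2 X n) :=
  measurable_hs (fun _ => hX.comp (measurable_shq _)) n

lemma measurable_HT (i1 i2 : Fin d) {X : (V d → T) → Fin 3} (hX : Measurable X) (l n : ℕ) :
    Measurable (HT i1 i2 X l n) :=
  measurable_hs (fun _ => hX.comp (measurable_shq _)) n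

lemma measurable_VV (i1 i2 : Fin d) {X : (V d → T) → Fin 3} (hX : Measurable X) (l : ℕ) :
    Measurable (VV i1 i2 X l) :=
  measurable_hs (fun _ => hX.comp (measurable_shq _)) l

omit [MeasurableSpace T] in
lemma hD_shift (i1 i2 : Fin d) (X : (V d → T) → Fin 3) (m n : ℕ) (z : V d → T) :
    hD i1 i2 X (m + n) z = hD i1 i2 X m z + hD i1 i2 X n (ts (pt i1 i2 m 0) z) := by
  unfold hD
  rw [hs_add]
  congr 2
  funext t
  rw [ts_ts, pt_add, Nat.add_comm m t]

/-- a proper colouring -/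
def Prp (x : V d → Fin 3) : Prop := ∀ u v : V d, ∑ i, |u i - v i| = 1 → x u ≠ x v

/-- the vertices used -/
def Sv (i1 i2 : Fin d) (D D' l : ℕ) : Finset (V d) :=
  ((Finset.range (D + D' + 1)).image fun t => pt i1 i2 t 0) ∪
  ((Finset.range (D + D' + 1)).image fun t => pt i1 i2 t l) ∪
  ((Finset.range (l + 1)).image fun t => pt i1 i2 0 t) ∪
  ((Finset.range (l + 1)).image fun t => pt i1 i2 D t) ∪
  ((Finset.range (l + 1)).image fun t => pt i1 i2 (D + D') t)

lemma card_Sv (i1 i2 : Fin d) (D D' l : ℕ) :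
    (Sv i1 i2 D D' l).card ≤ 2 * (D + D' + 1) + 3 * (l + 1) := by
  unfold Sv
  refine (Finset.card_union_le _ _).trans ?_
  have h1 := Finset.card_union_le
    (((Finset.range (D + D' + 1)).image fun t => pt i1 i2 t 0) ∪
      ((Finset.range (D + D' + 1)).image fun t => pt i1 i2 t l) ∪
      ((Finset.range (l + 1)).image fun t => pt i1 i2 0 t))
    ((Finset.range (l + 1)).image fun t => pt i1 i2 D t)
  have h2 := Finset.card_union_le
    (((Finset.range (D + D' + 1)).image fun t => pt i1 i2 t 0) ∪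
      ((Finset.range (D + D' + 1)).image fun t => pt i1 i2 t l))
    ((Finset.range (l + 1)).image fun t => pt i1 i2 0 t)
  have h3 := Finset.card_union_le
    ((Finset.range (D + D' + 1)).image fun t => pt i1 i2 t 0)
    ((Finset.range (D + D' + 1)).image fun t => pt i1 i2 t l)
  have e1 := Finset.card_image_le (s := Finset.range (D + D' + 1)) (f := fun t => pt i1 i2 t 0)
  have e2 := Finset.card_image_le (s := Finset.range (D + D' + 1)) (f := fun t => pt i1 i2 t l)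
  have e3 := Finset.card_image_le (s := Finset.range (l + 1)) (f := fun t => pt i1 i2 0 t)
  have e4 := Finset.card_image_le (s := Finset.range (l + 1)) (f := fun t => pt i1 i2 D t)
  have e5 := Finset.card_image_le (s := Finset.range (l + 1)) (f := fun t => pt i1 i2 (D + D') t)
  rw [Finset.card_range] at e1 e2 e3 e4 e5
  omega

lemma mem_Sv1 {i1 i2 : Fin d} {D D' l t : ℕ} (ht : t ≤ D + D') : pt i1 i2 t 0 ∈ Sv i1 i2 D D' l := by
  unfold Sv
  simp only [Finset.mem_union]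
  exact Or.inl (Or.inl (Or.inl (Or.inl (Finset.mem_image.2 ⟨t, Finset.mem_range.2 (by omega), rfl⟩))))

lemma mem_Sv2 {i1 i2 : Fin d} {D D' l t : ℕ} (ht : t ≤ D + D') : pt i1 i2 t l ∈ Sv i1 i2 D D' l := by
  unfold Sv
  simp only [Finset.mem_union]
  exact Or.inl (Or.inl (Or.inl (Or.inr (Finset.mem_image.2 ⟨t, Finset.mem_range.2 (by omega), rfl⟩))))

lemma mem_Sv3 {i1 i2 : Fin d} {D D' l t : ℕ} (ht : t ≤ l) : pt i1 i2 0 t ∈ Sv i1 i2 D D' l := by
  unfold Sv
  simp only [Finset.mem_union]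
  exact Or.inl (Or.inl (Or.inr (Finset.mem_image.2 ⟨t, Finset.mem_range.2 (by omega), rfl⟩)))

lemma mem_Sv4 {i1 i2 : Fin d} {D D' l t : ℕ} (ht : t ≤ l) : pt i1 i2 D t ∈ Sv i1 i2 D D' l := by
  unfold Sv
  simp only [Finset.mem_union]
  exact Or.inl (Or.inr (Finset.mem_image.2 ⟨t, Finset.mem_range.2 (by omega), rfl⟩))

lemma mem_Sv5 {i1 i2 : Fin d} {D D' l t : ℕ} (ht : t ≤ l) :
    pt i1 i2 (D + D') t ∈ Sv i1 i2 D D' l := by
  unfold Sv
  simp only [Finset.mem_union]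
  exact Or.inr (Finset.mem_image.2 ⟨t, Finset.mem_range.2 (by omega), rfl⟩)

/-- curvature identity for the true colouring -/
lemma rect_true {i1 i2 : Fin d} (h12 : i1 ≠ i2) {x : V d → Fin 3} (hx : Prp x) (n m : ℕ) :
    hs (fun t => x (pt i1 i2 t 0)) n + hs (fun t => x (pt i1 i2 n t)) m =
      hs (fun t => x (pt i1 i2 0 t)) m + hs (fun t => x (pt i1 i2 t m)) n :=
  hs_rect (G := fun i j => x (pt i1 i2 i j)) (fun i j => hx _ _ (pt_adj1 i1 i2 i j))
    (fun i j => hx _ _ (pt_adj2 h12 i j)) n m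

omit [MeasurableSpace T] in
/-- curvature identity for the truncated colouring on good configurations -/
lemma rect_trunc {i1 i2 : Fin d} (h12 : i1 ≠ i2) {X : (V d → T) → Fin 3} {y : V d → T}
    {x : V d → Fin 3} (hx : Prp x) {n m : ℕ}
    (h1 : ∀ t ≤ n, X (ts (pt i1 i2 t 0) y) = x (pt i1 i2 t 0))
    (h2 : ∀ t ≤ m, X (ts (pt i1 i2 n t) y) = x (pt i1 i2 n t))
    (h3 : ∀ t ≤ m, X (ts (pt i1 i2 0 t) y) = x (pt i1 i2 0 t))
    (h4 : ∀ t ≤ n, X (ts (pt i1 i2 t m) y) = x (pt i1 i2 t m)) :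
    hD i1 i2 X n y + VV i1 i2 X m (ts (pt i1 i2 n 0) y) =
      VV i1 i2 X m y + HT i1 i2 X m n y := by
  have e1 : hD i1 i2 X n y = hs (fun t => x (pt i1 i2 t 0)) n := hs_congr h1
  have e2 : VV i1 i2 X m (ts (pt i1 i2 n 0) y) = hs (fun t => x (pt i1 i2 n t)) m := by
    refine hs_congr fun t ht => ?_
    rw [ts_ts, pt_add, Nat.zero_add, Nat.add_zero]
    exact h2 t ht
  have e3 : VV i1 i2 X m y = hs (fun t => x (pt i1 i2 0 t)) m := hs_congr h3
  have e4 : HT i1 i2 X m n y = hs (fun t => x (pt i1 i2 t m)) n := hs_congr h4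
  rw [e1, e2, e3, e4]
  exact rect_true h12 hx n m

variable (ν : Measure T) [IsProbabilityMeasure ν]

/-- a local rule which agrees with a proper 3-colouring up to an error `ε` per site -/
structure Hyp (X : (V d → T) → Fin 3) (r : ℕ) (ε : ℝ≥0∞) : Prop where
  meas : Measurable X
  loc : ∀ z z' : V d → T, (∀ v ∈ bx d r, z v = z' v) → X z = X z'
  approx : ∃ g : (V d → T) → V d → Fin 3, (∀ᵐ y ∂(mq d ν), Prp (g y)) ∧
    ∀ v, mq d ν {y | ¬ X (ts v y) = g y v} ≤ ε

variable {ν}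

/-- a property holding on good configurations is likely -/
lemma good_bound {X : (V d → T) → Fin 3} {r : ℕ} {ε : ℝ≥0∞} (H : Hyp ν X r ε) (S : Finset (V d))
    (P : (V d → T) → Prop)
    (hP : ∀ (y : V d → T) (x : V d → Fin 3), Prp x → (∀ v ∈ S, X (ts v y) = x v) → P y) :
    mq d ν {y | ¬ P y} ≤ S.card * ε := by
  obtain ⟨g, hg, hg2⟩ := H.approx
  have h0 : mq d ν {y | ¬ Prp (g y)} = 0 := ae_iff.1 hg
  have hsub : {y : V d → T | ¬ P y} ⊆ (⋃ v ∈ S, {y | ¬ X (ts v y) = g y v}) ∪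
      {y | ¬ Prp (g y)} := by
    intro y hy
    by_contra hcon
    rw [Set.mem_union, not_or] at hcon
    obtain ⟨hc1, hc2⟩ := hcon
    apply hy
    refine hP y (g y) ?_ ?_
    · by_contra h; exact hc2 h
    · intro v hv
      by_contra h
      apply hc1
      simp only [Set.mem_iUnion]
      exact ⟨v, hv, h⟩
  refine (measure_mono hsub).trans ((measure_union_le _ _).trans ?_)
  rw [h0, add_zero]
  refine (measure_biUnion_finset_le _ _).trans ?_
  calc ∑ v ∈ S, mq d ν {y | ¬ X (ts v y) = g y v} ≤ ∑ _v ∈ S, ε :=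
        Finset.sum_le_sum fun v _ => hg2 v
    _ = _ := by rw [Finset.sum_const, nsmul_eq_mul]

omit [MeasurableSpace T] in
lemma hD_mg {i1 i2 : Fin d} {X : (V d → T) → Fin 3} {r : ℕ}
    (hloc : ∀ z z' : V d → T, (∀ v ∈ bx d r, z v = z' v) → X z = X z') (h12 : i1 ≠ i2) (n : ℕ)
    (z w : V d → T) :
    hD i1 i2 X n (mg {v : V d | |v i2| ≤ (r : ℤ)} z w) = hD i1 i2 X n z := by
  unfold hD
  refine hs_congr fun t _ => ?_
  apply hloc
  intro v hv
  rw [ts_apply, ts_apply]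
  apply mg_mem
  show |v i2 + pt i1 i2 t 0 i2| ≤ (r : ℤ)
  have : pt i1 i2 t 0 i2 = 0 := by
    unfold pt
    rw [if_neg h12.symm, if_pos rfl]; rfl
  rw [this, add_zero]
  exact mem_bx.1 hv i2

omit [MeasurableSpace T] in
lemma HT_mg {i1 i2 : Fin d} {X : (V d → T) → Fin 3} {r : ℕ}
    (hloc : ∀ z z' : V d → T, (∀ v ∈ bx d r, z v = z' v) → X z = X z') (h12 : i1 ≠ i2) (n : ℕ)
    (z w : V d → T) :
    HT i1 i2 X (2 * r + 1) n (mg {v : V d | |v i2| ≤ (r : ℤ)} z w) =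
      HT i1 i2 X (2 * r + 1) n w := by
  unfold HT
  refine hs_congr fun t _ => ?_
  apply hloc
  intro v hv
  rw [ts_apply, ts_apply]
  apply mg_not
  show ¬ |v i2 + pt i1 i2 t (2 * r + 1) i2| ≤ (r : ℤ)
  have : pt i1 i2 t (2 * r + 1) i2 = ((2 * r + 1 : ℕ) : ℤ) := by
    unfold pt
    rw [if_neg h12.symm, if_pos rfl]
  rw [this]
  have h1 := mem_bx.1 hv i2
  rw [abs_le] at h1
  rw [not_le]
  push_cast
  refine lt_of_lt_of_le ?_ (le_abs_self _)
  linarith [h1.1]

omit [MeasurableSpace T] in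
lemma ts_mg {i1 i2 : Fin d} (h12 : i1 ≠ i2) (r n : ℕ) (z w : V d → T) :
    ts (pt i1 i2 n 0) (mg {v : V d | |v i2| ≤ (r : ℤ)} z w) =
      mg {v : V d | |v i2| ≤ (r : ℤ)} (ts (pt i1 i2 n 0) z) (ts (pt i1 i2 n 0) w) := by
  funext u
  have : pt i1 i2 n 0 i2 = 0 := by
    unfold pt
    rw [if_neg h12.symm, if_pos rfl]; rfl
  have e : (u + pt i1 i2 n 0) i2 = u i2 := by
    show u i2 + pt i1 i2 n 0 i2 = u i2
    rw [this, add_zero]
  rw [ts_apply]
  by_cases h : |u i2| ≤ (r : ℤ)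
  · rw [mg_mem (show u + pt i1 i2 n 0 ∈ {v : V d | |v i2| ≤ (r : ℤ)} by
      show |(u + pt i1 i2 n 0) i2| ≤ (r : ℤ); rw [e]; exact h), mg_mem (show u ∈ _ from h),
      ts_apply]
  · rw [mg_not (show u + pt i1 i2 n 0 ∉ {v : V d | |v i2| ≤ (r : ℤ)} by
      show ¬ |(u + pt i1 i2 n 0) i2| ≤ (r : ℤ); rw [e]; exact h), mg_not (show u ∉ _ from h),
      ts_apply]

omit [MeasurableSpace T] in
lemma VV_local {i1 i2 : Fin d} {X : (V d → T) → Fin 3} {r : ℕ}
    (hloc : ∀ z z' : V d → T, (∀ v ∈ bx d r, z v = z' v) → X z = X z') (l : ℕ)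
    (w : V d → T) :
    Lc r (fun z => VV i1 i2 X l (mg {v : V d | |v i2| ≤ (r : ℤ)} z w)) := by
  intro z z' h
  unfold VV
  refine hs_congr fun t _ => ?_
  apply hloc
  intro v hv
  rw [ts_apply, ts_apply]
  by_cases hq : |(v + pt i1 i2 0 t) i2| ≤ (r : ℤ)
  · rw [mg_mem (show _ ∈ {v : V d | |v i2| ≤ (r : ℤ)} from hq),
      mg_mem (show _ ∈ {v : V d | |v i2| ≤ (r : ℤ)} from hq)]
    apply h
    rw [mem_bx]
    intro i
    by_cases hi : i = i2
    · rw [hi]; exact hq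
    · have : pt i1 i2 0 t i = 0 := by
        unfold pt
        by_cases hi1 : i = i1
        · rw [if_pos hi1]; rfl
        · rw [if_neg hi1, if_neg hi]
      show |v i + pt i1 i2 0 t i| ≤ (r : ℤ)
      rw [this, add_zero]
      exact mem_bx.1 hv i
  · rw [mg_not (show _ ∉ {v : V d | |v i2| ≤ (r : ℤ)} from hq),
      mg_not (show _ ∉ {v : V d | |v i2| ≤ (r : ℤ)} from hq)]

lemma measurable_VVmg {i1 i2 : Fin d} {X : (V d → T) → Fin 3} (hX : Measurable X) (r l : ℕ)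
    (w : V d → T) :
    Measurable (fun z => VV i1 i2 X l (mg {v : V d | |v i2| ≤ (r : ℤ)} z w)) := by
  have h1 : Measurable fun z : V d → T => mg {v : V d | |v i2| ≤ (r : ℤ)} z w :=
    (measurable_mg {v : V d | |v i2| ≤ (r : ℤ)}).comp (measurable_id.prodMk measurable_const)
  exact (measurable_VV i1 i2 hX l).comp h1

/-- The three columns lemma. -/
lemma three {i1 i2 : Fin d} (h12 : i1 ≠ i2) {X : (V d → T) → Fin 3} {r : ℕ} {ε : ℝ≥0∞}
    (H : Hyp ν X r ε) (D D' K : ℕ) (hK : 2 * (D + D' + 1) + 3 * (2 * r + 1 + 1) ≤ K) :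
    ∃ Φ0 Φ1 Φ2 : (V d → T) → ℤ, Measurable Φ0 ∧ Measurable Φ1 ∧ Measurable Φ2 ∧
      Lc r Φ0 ∧ Lc r Φ1 ∧ Lc r Φ2 ∧
      mq d ν {z | ¬ hD i1 i2 X D z = Φ0 z - Φ1 (ts (pt i1 i2 D 0) z)} ≤ K * ε ∧
      mq d ν {z | ¬ hD i1 i2 X D' z = Φ1 z - Φ2 (ts (pt i1 i2 D' 0) z)} ≤ K * ε ∧
      mq d ν {z | ¬ hD i1 i2 X (D + D') z = Φ0 z - Φ2 (ts (pt i1 i2 (D + D') 0) z)} ≤ K * ε ∧
      ∀ z, (Φ0 z - Φ1 z - D) % 2 = 0 := by
  classical
  set l := 2 * r + 1 with hl
  set B : Set (V d) := {v : V d | |v i2| ≤ (r : ℤ)} with hB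
  set P : (V d → T) → Prop := fun y =>
    (hD i1 i2 X D y + VV i1 i2 X l (ts (pt i1 i2 D 0) y) = VV i1 i2 X l y + HT i1 i2 X l D y) ∧
    (hD i1 i2 X (D + D') y + VV i1 i2 X l (ts (pt i1 i2 (D + D') 0) y) =
      VV i1 i2 X l y + HT i1 i2 X l (D + D') y) with hP
  have hPm : MeasurableSet {y : V d → T | ¬ P y} := by
    have m1 := measurable_hD i1 i2 H.meas
    have m2 := measurable_VV i1 i2 H.meas l
    have m3 := measurable_HT i1 i2 H.meas l
    apply MeasurableSet.compl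
    exact (measurableSet_eq_fun ((m1 D).add (m2.comp (measurable_shq _))) (m2.add (m3 D))).inter
      (measurableSet_eq_fun ((m1 (D + D')).add (m2.comp (measurable_shq _)))
        (m2.add (m3 (D + D'))))
  have hPb : mq d ν {y | ¬ P y} ≤ K * ε := by
    refine (good_bound H (Sv i1 i2 D D' l) P ?_).trans ?_
    · intro y x hx hS
      constructor
      · exact rect_trunc h12 hx (fun t ht => hS _ (mem_Sv1 (by omega)))
          (fun t ht => hS _ (mem_Sv4 ht)) (fun t ht => hS _ (mem_Sv3 ht))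
          (fun t ht => hS _ (mem_Sv2 (by omega)))
      · exact rect_trunc h12 hx (fun t ht => hS _ (mem_Sv1 (by omega)))
          (fun t ht => hS _ (mem_Sv5 ht)) (fun t ht => hS _ (mem_Sv3 ht))
          (fun t ht => hS _ (mem_Sv2 (by omega)))
    · gcongr
      exact (card_Sv i1 i2 D D' l).trans hK
  -- choice of the outside labels
  obtain ⟨w, hw⟩ : ∃ w : V d → T, mq d ν {z | ¬ P (mg B z w)} ≤ K * ε := by
    rw [← (mp_mg ν B).measure_preimage hPm.nullMeasurableSet,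
      Measure.prod_apply_symm (measurable_mg B hPm)] at hPb
    obtain ⟨w, hw⟩ := exists_le_lintegral (μ := mq d ν)
      (measurable_measure_prodMk_right (μ := mq d ν) (measurable_mg B hPm)).aemeasurable
    exact ⟨w, hw.trans hPb⟩
  have mV : ∀ w' : V d → T, Measurable (fun z => VV i1 i2 X l (mg B z w')) := fun w' =>
    measurable_VVmg H.meas r l w'
  have lV : ∀ w' : V d → T, Lc r (fun z => VV i1 i2 X l (mg B z w')) := fun w' =>
    VV_local H.loc l w'
  set a1 : ℤ := HT i1 i2 X l D w with ha1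
  set a2 : ℤ := HT i1 i2 X l (D + D') w with ha2
  have k1 : ∀ z, P (mg B z w) → hD i1 i2 X D z = VV i1 i2 X l (mg B z w) -
      (VV i1 i2 X l (mg B (ts (pt i1 i2 D 0) z) (ts (pt i1 i2 D 0) w)) - a1) := by
    intro z hz
    have h1 := hz.1
    rw [hB, hD_mg H.loc h12, ts_mg h12, hl, HT_mg H.loc h12] at h1
    rw [ha1, hB, hl]
    linarith
  have k2 : ∀ z, P (mg B z w) → hD i1 i2 X (D + D') z = VV i1 i2 X l (mg B z w) -
      (VV i1 i2 X l (mg B (ts (pt i1 i2 (D + D') 0) z) (ts (pt i1 i2 (D + D') 0) w)) - a2) := by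
    intro z hz
    have h1 := hz.2
    rw [hB, hD_mg H.loc h12, ts_mg h12, hl, HT_mg H.loc h12] at h1
    rw [ha2, hB, hl]
    linarith
  refine ⟨fun z => VV i1 i2 X l (mg B z w),
    fun z => VV i1 i2 X l (mg B z (ts (pt i1 i2 D 0) w)) - a1,
    fun z => VV i1 i2 X l (mg B z (ts (pt i1 i2 (D + D') 0) w)) - a2,
    mV w, (mV _).sub_const a1, (mV _).sub_const a2, lV w, ?_, ?_, ?_, ?_, ?_, ?_⟩
  · intro z z' h
    have := lV (ts (pt i1 i2 D 0) w) z z' h
    beta_reduce at this ⊢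
    rw [this]
  · intro z z' h
    have := lV (ts (pt i1 i2 (D + D') 0) w) z z' h
    beta_reduce at this ⊢
    rw [this]
  · exact ap_mono ν hw k1
  · have hm : MeasurableSet {z : V d → T | ¬ hD i1 i2 X D' z =
        (VV i1 i2 X l (mg B z (ts (pt i1 i2 D 0) w)) - a1) -
        (VV i1 i2 X l (mg B (ts (pt i1 i2 D' 0) z) (ts (pt i1 i2 (D + D') 0) w)) - a2)} := by
      apply MeasurableSet.compl
      exact measurableSet_eq_fun (measurable_hD i1 i2 H.meas D')
        (((mV _).sub_const a1).sub (((mV _).comp (measurable_shq _)).sub_const a2))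
    refine ap_ts' ν hm (pt i1 i2 D 0) (ap_mono ν hw fun z hz => ?_)
    have h1 := k1 z hz
    have h2 := k2 z hz
    rw [hD_shift, h1] at h2
    have h3 : ts (pt i1 i2 D' 0) (ts (pt i1 i2 D 0) z) = ts (pt i1 i2 (D + D') 0) z := by
      rw [ts_ts, pt_add, Nat.add_comm D' D]
    rw [h3]
    linarith
  · exact ap_mono ν hw k2
  · intro z
    have p1 := hs_parity (fun t => X (ts (pt i1 i2 0 t) (mg B z w))) l
    have p2 := hs_parity (fun t => X (ts (pt i1 i2 0 t) (mg B z (ts (pt i1 i2 D 0) w)))) l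
    have p3 := hs_parity (fun t => X (ts (pt i1 i2 t l) w)) D
    show (hs (fun t => X (ts (pt i1 i2 0 t) (mg B z w))) l -
      (hs (fun t => X (ts (pt i1 i2 0 t) (mg B z (ts (pt i1 i2 D 0) w)))) l -
        hs (fun t => X (ts (pt i1 i2 t l) w)) D) - D) % 2 = 0
    omega

end Pool.Agent.Y782.TC
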