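import Pool.Agent.Y782.TC.Columns

set_option autoImplicit false
open MeasureTheory
open scoped ENNReal

namespace Pool.Agent.Y782.TC

open Pool.Agent.Y782.FF

variable {d : ℕ} {T : Type*} [MeasurableSpace T] {ν : Measure T} [IsProbabilityMeasure ν]

/-- along the bottom row, the height is the colour difference modulo 3 -/
lemma row_mod (i1 i2 : Fin d) {X : (V d → T) → Fin 3} {r : ℕ} {ε : ℝ≥0∞}
    (H : Hyp ν X r ε) (D K : ℕ) (hK : D + 1 ≤ K) :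
    mq d ν {z | ¬ (hD i1 i2 X D z - ((X (ts (pt i1 i2 D 0) z)).val : ℤ) + ((X z).val : ℤ)) % 3 = 0} ≤
      K * ε := by
  classical
  refine (good_bound H ((Finset.range (D + 1)).image fun t => pt i1 i2 t 0) _ ?_).trans ?_
  · intro y x hx hS
    have h1 : ∀ t ≤ D, X (ts (pt i1 i2 t 0) y) = x (pt i1 i2 t 0) := fun t ht =>
      hS _ (Finset.mem_image.2 ⟨t, Finset.mem_range.2 (by omega), rfl⟩)
    have h2 : hD i1 i2 X D y = hs (fun t => x (pt i1 i2 t 0)) D := hs_congr h1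
    have h3 := h1 0 (Nat.zero_le D)
    rw [pt_zero, ts_zero] at h3
    rw [h2, h1 D le_rfl, h3]
    have h4 := hs_mod (g := fun t => x (pt i1 i2 t 0)) D (fun t => hx _ _ (pt_adj1 i1 i2 t 0))
    rw [← pt_zero i1 i2]
    exact h4
  · gcongr
    refine Finset.card_image_le.trans ?_
    rw [Finset.card_range]
    exact hK

/-- The constant attached to a distance. -/
lemma kappa {i1 i2 : Fin d} (h12 : i1 ≠ i2) {X : (V d → T) → Fin 3} {r : ℕ} {ε : ℝ≥0∞}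
    (H : Hyp ν X r ε) (D K : ℕ) (hD' : 2 * r + 1 ≤ D)
    (hK : 2 * (D + D + 1) + 3 * (2 * r + 1 + 1) ≤ K) (hη : 18 * (K * ε) < 1) :
    ∃ κ : ℤ, (κ - D) % 2 = 0 ∧ κ % 3 = 0 ∧ κ ≤ D ∧ -(D : ℤ) ≤ κ ∧
      ∀ Φ Ψ : (V d → T) → ℤ, Measurable Φ → Measurable Ψ → Lc r Φ → Lc r Ψ →
        mq d ν {z | ¬ hD i1 i2 X D z = Φ z - Ψ (ts (pt i1 i2 D 0) z)} ≤ K * ε →
        mq d ν {z | ¬ Φ z - Ψ z = κ} ≤ 6 * (K * ε) := by
  obtain ⟨Φ0, Φ1, Φ2, m0, m1, m2, l0, l1, l2, g1, g2, -, hpar⟩ := three h12 H D D K hK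
  have hrow := row_mod i1 i2 H D K (by omega)
  set η : ℝ≥0∞ := K * ε with hηdef
  set w := pt i1 i2 D 0 with hw
  have hwn : w ∉ bx d (r + r) := pt_not_mem i1 i2 hD'
  have hηmul : ∀ c : ℝ≥0∞, c ≤ 18 → c * η < 1 := fun c hc =>
    lt_of_le_of_lt (by gcongr) hη
  have h6 : (η + η) + (η + η) + (η + η) < 1 := by
    have := hηmul 6 (by norm_num)
    have e : (η + η) + (η + η) + (η + η) = 6 * η := by ring
    rw [e]; exact this
  have hDm : Measurable (hD i1 i2 X D) := measurable_hD i1 i2 H.meas D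
  -- the constant
  obtain ⟨κ, hκ1, -⟩ : ∃ κ : ℤ, mq d ν {z | ¬ Φ0 z - Φ1 z = κ} ≤ η + η ∧
      mq d ν {z | ¬ Φ1 z - Φ2 z = κ} ≤ η + η := by
    refine lc ν (u := fun z => Φ0 z - Φ1 z) (v := fun z => Φ1 z - Φ2 z) (m0.sub m1) (m1.sub m2)
      (fun z z' h => ?_) (fun z z' h => ?_) hwn ?_ h6
    · beta_reduce; rw [l0 z z' h, l1 z z' h]
    · beta_reduce; rw [l1 z z' h, l2 z z' h]
    · refine ap_mono ν (ap_and ν g1 g2) fun z hz => ?_
      obtain ⟨h1, h2⟩ := hz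
      linarith
  -- all representing pairs
  have huniq : ∀ Φ Ψ : (V d → T) → ℤ, Measurable Φ → Measurable Ψ → Lc r Φ → Lc r Ψ →
        mq d ν {z | ¬ hD i1 i2 X D z = Φ z - Ψ (ts w z)} ≤ η →
        mq d ν {z | ¬ Φ z - Ψ z = κ} ≤ 6 * η := by
    intro Φ Ψ mΦ mΨ lΦ lΨ hrep
    obtain ⟨c, hc1, hc2⟩ : ∃ c : ℤ, mq d ν {z | ¬ Φ z - Φ0 z = c} ≤ η + η ∧
        mq d ν {z | ¬ Ψ z - Φ1 z = c} ≤ η + η := by
      refine lc ν (u := fun z => Φ z - Φ0 z) (v := fun z => Ψ z - Φ1 z) (mΦ.sub m0) (mΨ.sub m1)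
        (fun z z' h => ?_) (fun z z' h => ?_) hwn ?_ h6
      · beta_reduce; rw [lΦ z z' h, l0 z z' h]
      · beta_reduce; rw [lΨ z z' h, l1 z z' h]
      · refine ap_mono ν (ap_and ν hrep g1) fun z hz => ?_
        obtain ⟨h1, h2⟩ := hz
        linarith
    have h3 := ap_and ν (ap_and ν hc1 hc2) hκ1
    have e : (η + η) + (η + η) + (η + η) = 6 * η := by ring
    rw [e] at h3
    exact ap_mono ν h3 fun z hz => by
      obtain ⟨⟨h1, h2⟩, h4⟩ := hz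
      linarith
  -- parity
  have hp : (κ - D) % 2 = 0 := by
    obtain ⟨z, hz⟩ := ap_ex ν hκ1 (lt_of_le_of_lt (by
      have e : η + η = 2 * η := by ring
      exact e.le) (hηmul 2 (by norm_num)))
    have := hpar z
    rw [hz] at this
    exact this
  -- divisibility by 3
  have h3 : κ % 3 = 0 := by
    obtain ⟨c, hc1, hc2⟩ : ∃ c : ℤ, mq d ν {z | ¬ (Φ0 z + ((X z).val : ℤ)) % 3 = c} ≤ η + η ∧
        mq d ν {z | ¬ (Φ1 z + ((X z).val : ℤ)) % 3 = c} ≤ η + η := by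
      have mX : Measurable fun z => ((X z).val : ℤ) :=
        (measurable_of_countable (fun a : Fin 3 => (a.val : ℤ))).comp H.meas
      have mm : Measurable (fun n : ℤ => n % 3) := measurable_of_countable _
      refine lc ν (u := fun z => (Φ0 z + ((X z).val : ℤ)) % 3)
        (v := fun z => (Φ1 z + ((X z).val : ℤ)) % 3) (mm.comp (m0.add mX)) (mm.comp (m1.add mX))
        (fun z z' h => ?_) (fun z z' h => ?_) hwn ?_ h6
      · beta_reduce; rw [l0 z z' h, H.loc z z' h]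
      · beta_reduce; rw [l1 z z' h, H.loc z z' h]
      · refine ap_mono ν (ap_and ν g1 hrow) fun z hz => ?_
        obtain ⟨h1, h2⟩ := hz
        rw [h1] at h2
        beta_reduce
        omega
    obtain ⟨z, ⟨⟨h1, h2⟩, h4⟩⟩ := ap_ex ν (ap_and ν (ap_and ν hc1 hc2) hκ1) h6
    omega
  -- size
  have hrep7 : mq d ν {z | ¬ hD i1 i2 X D z = Φ1 z + κ - Φ1 (ts w z)} ≤ η + (η + η) := by
    refine ap_mono ν (ap_and ν g1 hκ1) fun z hz => ?_
    obtain ⟨h1, h2⟩ := hz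
    linarith
  obtain ⟨hf1, hf2⟩ := half ν m1 l1 hwn
  have key : ∀ S : Set (V d → T), 2 * mq d ν S ≤ 1 →
      ∃ z, z ∉ S ∧ hD i1 i2 X D z = Φ1 z + κ - Φ1 (ts w z) := by
    intro S hS
    by_contra hcon
    push Not at hcon
    have h5 : (Set.univ : Set (V d → T)) ⊆ S ∪ {z | ¬ hD i1 i2 X D z = Φ1 z + κ - Φ1 (ts w z)} := by
      intro z _
      by_cases hz : z ∈ S
      · exact Or.inl hz
      · exact Or.inr (hcon z hz)
    have h6' : (1 : ℝ≥0∞) ≤ mq d ν S + (η + (η + η)) := by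
      calc (1 : ℝ≥0∞) = mq d ν Set.univ := measure_univ.symm
        _ ≤ mq d ν (S ∪ {z | ¬ hD i1 i2 X D z = Φ1 z + κ - Φ1 (ts w z)}) := measure_mono h5
        _ ≤ _ := (measure_union_le _ _).trans (add_le_add le_rfl hrep7)
    have h7 : (2 : ℝ≥0∞) ≤ 1 + 6 * η := by
      calc (2 : ℝ≥0∞) = 2 * 1 := (mul_one 2).symm
        _ ≤ 2 * (mq d ν S + (η + (η + η))) := by gcongr
        _ = 2 * mq d ν S + 6 * η := by ring
        _ ≤ 1 + 6 * η := by gcongr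
    have h8 : 1 + 6 * η < 1 + 1 :=
      ENNReal.add_lt_add_left ENNReal.one_ne_top (hηmul 6 (by norm_num))
    rw [one_add_one_eq_two] at h8
    exact absurd h8 (not_lt.2 h7)
  have hle : κ ≤ D := by
    obtain ⟨z, hz1, hz2⟩ := key _ hf1
    have h5 : ¬ Φ1 z < Φ1 (ts w z) := hz1
    have h6' := hs_le (fun t => X (ts (pt i1 i2 t 0) z)) D
    have h7 : hD i1 i2 X D z ≤ D := h6'
    linarith [not_lt.1 h5]
  have hge : -(D : ℤ) ≤ κ := by
    obtain ⟨z, hz1, hz2⟩ := key _ hf2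
    have h5 : ¬ Φ1 (ts w z) < Φ1 z := hz1
    have h6' := hs_ge (fun t => X (ts (pt i1 i2 t 0) z)) D
    have h7 : -(D : ℤ) ≤ hD i1 i2 X D z := h6'
    linarith [not_lt.1 h5]
  exact ⟨κ, hp, h3, hle, hge, huniq⟩

/-- The main lower bound on the error of a local rule. -/
theorem main_contra {i1 i2 : Fin d} (h12 : i1 ≠ i2) {X : (V d → T) → Fin 3} {r : ℕ} {ε : ℝ≥0∞}
    (H : Hyp ν X r ε) : 1 ≤ 504 * ((2 * r + 1 : ℕ) : ℝ≥0∞) * ε := by
  by_contra hcon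
  push Not at hcon
  set m := 2 * r + 1 with hm
  set K := 28 * m with hK
  have hη : 18 * (K * ε) < 1 := by
    have e : 18 * ((K : ℕ) * ε) = 504 * ((m : ℕ) : ℝ≥0∞) * ε := by
      rw [hK]; push_cast; ring
    rw [e]; exact hcon
  have hex : ∀ D : ℕ, ∃ κ : ℤ, m ≤ D → D ≤ 5 * m →
      ((κ - D) % 2 = 0 ∧ κ % 3 = 0 ∧ κ ≤ D ∧ -(D : ℤ) ≤ κ ∧
      ∀ Φ Ψ : (V d → T) → ℤ, Measurable Φ → Measurable Ψ → Lc r Φ → Lc r Ψ →
        mq d ν {z | ¬ hD i1 i2 X D z = Φ z - Ψ (ts (pt i1 i2 D 0) z)} ≤ K * ε →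
        mq d ν {z | ¬ Φ z - Ψ z = κ} ≤ 6 * (K * ε)) := by
    intro D
    by_cases h1 : m ≤ D
    · by_cases h2 : D ≤ 5 * m
      · obtain ⟨κ, hκ⟩ := kappa h12 H D K h1 (by omega) hη
        exact ⟨κ, fun _ _ => hκ⟩
      · exact ⟨0, fun _ h => absurd h h2⟩
    · exact ⟨0, fun h => absurd h h1⟩
  choose κ hκ using hex
  have hadd : ∀ D D' : ℕ, m ≤ D → m ≤ D' → D + D' ≤ 5 * m → κ (D + D') = κ D + κ D' := by
    intro D D' h1 h2 h3
    obtain ⟨Φ0, Φ1, Φ2, m0, m1, m2, l0, l1, l2, g1, g2, g3, -⟩ :=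
      three h12 H D D' K (by omega)
    have e1 := (hκ D h1 (by omega)).2.2.2.2 Φ0 Φ1 m0 m1 l0 l1 g1
    have e2 := (hκ D' h2 (by omega)).2.2.2.2 Φ1 Φ2 m1 m2 l1 l2 g2
    have e3 := (hκ (D + D') (by omega) h3).2.2.2.2 Φ0 Φ2 m0 m2 l0 l2 g3
    obtain ⟨z, ⟨⟨a1, a2⟩, a3⟩⟩ := ap_ex ν (ap_and ν (ap_and ν e1 e2) e3) (by
      have e : 6 * (K * ε) + 6 * (K * ε) + 6 * (K * ε) = 18 * ((K : ℝ≥0∞) * ε) := by ring
      rw [e]; exact hη)
    linarith
  obtain ⟨p1, q1, -, -, -⟩ := hκ m le_rfl (by omega)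
  obtain ⟨p2, q2, -, -, -⟩ := hκ (m + 1) (by omega) (by omega)
  obtain ⟨-, -, b1, b2, -⟩ := hκ (2 * m) (by omega) (by omega)
  obtain ⟨-, -, c1, c2, -⟩ := hκ (5 * m) (by omega) le_rfl
  have hlin : ∀ k : ℕ, k ≤ 3 * m → κ (2 * m + k) = κ (2 * m) + k * (κ (m + 1) - κ m) := by
    intro k
    induction k with
    | zero => intro _; simp
    | succ k ih =>
      intro hk
      have h1 := ih (by omega)
      have h2 := hadd (m + 1) (m + k) (by omega) (by omega) (by omega)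
      have h3 := hadd m (m + k) le_rfl (by omega) (by omega)
      have e1 : m + 1 + (m + k) = 2 * m + (k + 1) := by ring
      have e2 : m + (m + k) = 2 * m + k := by ring
      rw [e1] at h2
      rw [e2] at h3
      push_cast
      linarith
  have h5 := hlin (3 * m) le_rfl
  have e5 : 2 * m + 3 * m = 5 * m := by ring
  rw [e5] at h5
  set s : ℤ := κ (m + 1) - κ m with hs'
  have hs3 : 3 ≤ s ∨ s ≤ -3 := by
    push_cast at p2
    omega
  have hmpos : (1 : ℤ) ≤ m := by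
    have : 1 ≤ m := by omega
    exact_mod_cast this
  push_cast at h5 b1 b2 c1 c2
  rcases hs3 with h | h
  · nlinarith
  · nlinarith

end Pool.Agent.Y782.TC
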