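import Pool.Agent.Y782.FF.Meas

set_option autoImplicit false
open MeasureTheory
open scoped ENNReal

namespace Pool.Agent.Y782.TC

open Pool.Agent.Y782.FF

variable {d : ℕ} {T : Type*} [MeasurableSpace T]

/-- product measure with general labels -/
noncomputable abbrev mq (d : ℕ) {T : Type*} [MeasurableSpace T] (ν : Measure T)
    [IsProbabilityMeasure ν] : Measure (V d → T) :=
  Measure.infinitePi fun _ : V d => ν

/-- Translation of a configuration. -/
def ts {X : Type*} (v : V d) (y : V d → X) : V d → X := fun u => y (u + v)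

@[simp] lemma ts_apply {X : Type*} (v : V d) (y : V d → X) (u : V d) :
    ts v y u = y (u + v) := rfl

lemma ts_ts {X : Type*} (v w : V d) (y : V d → X) : ts v (ts w y) = ts (v + w) y := by
  funext u; simp [add_assoc]

@[simp] lemma ts_zero {X : Type*} (y : V d → X) : ts (0 : V d) y = y := by
  funext u; simp

lemma measurable_shq (v : V d) : Measurable (ts v : (V d → T) → V d → T) := by
  unfold ts; fun_prop

lemma map_shq (ν : Measure T) [IsProbabilityMeasure ν] (v : V d) :
    (mq d ν).map (ts v) = mq d ν := by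
  refine Measure.eq_infinitePi _ fun s t ht => ?_
  rw [Measure.map_apply (measurable_shq v) (.pi s.countable_toSet fun _ _ => ht _)]
  have : (ts v : (V d → T) → V d → T) ⁻¹' ((s : Set (V d)).pi t) =
      Set.pi (↑(s.map (addRightEmbedding v)) : Set (V d)) (fun u => t (u - v)) := by
    ext y
    simp only [Set.mem_preimage, Set.mem_pi, Finset.mem_coe, ts_apply, Finset.mem_map,
      addRightEmbedding_apply, forall_exists_index, and_imp]
    constructor
    · rintro h i j hj rfl
      simpa using h j hj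
    · intro h i hi
      simpa using h (i + v) i hi rfl
  rw [this, Measure.infinitePi_pi _ (fun i _ => ht _), Finset.prod_map]
  simp

lemma mp_shq (ν : Measure T) [IsProbabilityMeasure ν] (v : V d) :
    MeasurePreserving (ts v) (mq d ν) (mq d ν) := ⟨measurable_shq v, map_shq ν v⟩

open Classical in
/-- `z` on `B`, `y` off `B`. -/
noncomputable def mg (B : Set (V d)) (z y : V d → T) : V d → T :=
  fun u => if u ∈ B then z u else y u

omit [MeasurableSpace T] in
lemma mg_mem {B : Set (V d)} {z y : V d → T} {u : V d} (h : u ∈ B) : mg B z y u = z u := by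
  unfold mg; rw [if_pos h]

omit [MeasurableSpace T] in
lemma mg_not {B : Set (V d)} {z y : V d → T} {u : V d} (h : u ∉ B) : mg B z y u = y u := by
  unfold mg; rw [if_neg h]

lemma measurable_mg (B : Set (V d)) :
    Measurable (fun p : (V d → T) × (V d → T) => mg B p.1 p.2) := by
  classical
  unfold mg
  refine measurable_pi_lambda _ fun u => ?_
  by_cases h : u ∈ B
  · simp only [h, if_true]; fun_prop
  · simp only [h, if_false]; fun_prop

lemma map_mg (ν : Measure T) [IsProbabilityMeasure ν] (B : Set (V d)) :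
    ((mq d ν).prod (mq d ν)).map (fun p => mg B p.1 p.2) = mq d ν := by
  classical
  refine Measure.eq_infinitePi _ fun s t ht => ?_
  rw [Measure.map_apply (measurable_mg B) (.pi s.countable_toSet fun _ _ => ht _)]
  have : (fun p : (V d → T) × (V d → T) => mg B p.1 p.2) ⁻¹' ((s : Set (V d)).pi t) =
      (Set.pi (↑(s.filter (· ∈ B)) : Set (V d)) t) ×ˢ
        (Set.pi (↑(s.filter (· ∉ B)) : Set (V d)) t) := by
    ext ⟨z, y⟩
    simp only [Set.mem_preimage, Set.mem_pi, Finset.mem_coe, Set.mem_prod, Finset.mem_filter, mg]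
    constructor
    · intro h
      refine ⟨fun i hi => ?_, fun i hi => ?_⟩
      · have := h i hi.1; rwa [if_pos hi.2] at this
      · have := h i hi.1; rwa [if_neg hi.2] at this
    · rintro ⟨h1, h2⟩ i hi
      by_cases hB : i ∈ B
      · rw [if_pos hB]; exact h1 i ⟨hi, hB⟩
      · rw [if_neg hB]; exact h2 i ⟨hi, hB⟩
  rw [this, Measure.prod_prod, Measure.infinitePi_pi _ (fun i _ => ht i),
    Measure.infinitePi_pi _ (fun i _ => ht i), Finset.prod_filter_mul_prod_filter_not]

lemma mp_mg (ν : Measure T) [IsProbabilityMeasure ν] (B : Set (V d)) :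
    MeasurePreserving (fun p : (V d → T) × (V d → T) => mg B p.1 p.2)
      ((mq d ν).prod (mq d ν)) (mq d ν) :=
  ⟨measurable_mg B, map_mg ν B⟩

omit [MeasurableSpace T] in
lemma mg_mg (B : Set (V d)) (z y y' : V d → T) : mg B (mg B z y) y' = mg B z y' := by
  funext u
  by_cases h : u ∈ B
  · rw [mg_mem h, mg_mem h, mg_mem h]
  · rw [mg_not h, mg_not h]

/-! ### The truncated rule -/

variable {k : ℕ}

/-- conditional probability that the output at `0` is `a`, given the labels in the cube. -/
noncomputable def gp (ν : Measure T) [IsProbabilityMeasure ν] (f : (V d → T) → V d → Fin k)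
    (L : ℕ) (a : Fin k) (y : V d → T) : ℝ≥0∞ :=
  mq d ν {y' | f (mg (bx d L) y y') 0 = a}

lemma measurable_f0 {f : (V d → T) → V d → Fin k} (hf : Measurable f) :
    Measurable fun y => f y 0 := (measurable_pi_apply (0 : V d)).comp hf

lemma measurableSet_gp {f : (V d → T) → V d → Fin k} (hf : Measurable f) (L : ℕ) (a : Fin k) :
    MeasurableSet {p : (V d → T) × (V d → T) | f (mg (bx d L) p.1 p.2) 0 = a} :=
  ((measurable_f0 hf).comp (measurable_mg _)) (measurableSet_singleton a)

variable (ν : Measure T) [IsProbabilityMeasure ν]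

lemma measurable_gp {f : (V d → T) → V d → Fin k} (hf : Measurable f) (L : ℕ) (a : Fin k) :
    Measurable (gp ν f L a) :=
  measurable_measure_prodMk_left (ν := mq d ν) (measurableSet_gp hf L a)

variable {ν}

lemma gp_unique {f : (V d → T) → V d → Fin k} (hf : Measurable f) {L : ℕ} {a b : Fin k}
    {y : V d → T} (ha : gp ν f L a y = 1) (hb : gp ν f L b y = 1) : a = b := by
  by_contra hne
  have hm : ∀ c : Fin k, MeasurableSet {y' | f (mg (bx d L) y y') 0 = c} := fun c =>
    measurable_prodMk_left (measurableSet_gp hf L c)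
  have hdis : Disjoint {y' | f (mg (bx d L) y y') 0 = a} {y' | f (mg (bx d L) y y') 0 = b} := by
    rw [Set.disjoint_left]
    intro y' h1 h2
    exact hne (h1.symm.trans h2)
  have h1 := measure_union (μ := mq d ν) hdis (hm b)
  have h2 : mq d ν ({y' | f (mg (bx d L) y y') 0 = a} ∪ {y' | f (mg (bx d L) y y') 0 = b}) ≤ 1 :=
    prob_le_one
  unfold gp at ha hb
  rw [h1, ha, hb] at h2
  norm_num at h2

variable (ν)

open Classical in
/-- the truncated rule -/
noncomputable def fL (f : (V d → T) → V d → Fin k) (a0 : Fin k) (L : ℕ) (y : V d → T) : Fin k :=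
  if h : ∃ a, gp ν f L a y = 1 then h.choose else a0

variable {ν}

lemma fL_eq {f : (V d → T) → V d → Fin k} (hf : Measurable f) {a0 : Fin k} {L : ℕ} {a : Fin k}
    {y : V d → T} (h : gp ν f L a y = 1) : fL ν f a0 L y = a := by
  unfold fL
  rw [dif_pos ⟨a, h⟩]
  exact gp_unique hf (Exists.choose_spec (p := fun a => gp ν f L a y = 1) ⟨a, h⟩) h

lemma fL_eq_default {f : (V d → T) → V d → Fin k} {a0 : Fin k} {L : ℕ}
    {y : V d → T} (h : ∀ a, gp ν f L a y ≠ 1) : fL ν f a0 L y = a0 := by
  unfold fL
  rw [dif_neg]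
  rintro ⟨a, ha⟩
  exact h a ha

variable (ν)

/-- undecided configurations -/
def DL (f : (V d → T) → V d → Fin k) (L : ℕ) : Set (V d → T) := {y | ∀ a, gp ν f L a y ≠ 1}

lemma measurableSet_DL {f : (V d → T) → V d → Fin k} (hf : Measurable f) (L : ℕ) :
    MeasurableSet (DL ν f L) := by
  have : DL ν f L = ⋂ a : Fin k, (gp ν f L a ⁻¹' {1})ᶜ := by
    ext y
    simp only [Set.mem_iInter, Set.mem_compl_iff, Set.mem_preimage, Set.mem_singleton_iff]
    rfl
  rw [this]
  exact MeasurableSet.iInter fun a => (measurable_gp ν hf L a (measurableSet_singleton 1)).compl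

lemma measurable_fL {f : (V d → T) → V d → Fin k} (hf : Measurable f) (a0 : Fin k) (L : ℕ) :
    Measurable (fL ν f a0 L) := by
  classical
  refine measurable_to_countable' fun a => ?_
  have : fL ν f a0 L ⁻¹' {a} = (gp ν f L a ⁻¹' {1}) ∪ (if a = a0 then DL ν f L else ∅) := by
    ext y
    simp only [Set.mem_preimage, Set.mem_singleton_iff, Set.mem_union]
    constructor
    · intro h
      by_cases hex : ∃ b, gp ν f L b y = 1
      · obtain ⟨b, hb⟩ := hex
        rw [fL_eq hf hb] at h
        left; rw [← h]; exact hb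
      · push Not at hex
        rw [fL_eq_default hex] at h
        right
        rw [if_pos h.symm]; exact hex
    · rintro (h | h)
      · exact fL_eq hf h
      · by_cases ha : a = a0
        · rw [if_pos ha] at h
          rw [fL_eq_default h, ha]
        · rw [if_neg ha] at h
          exact absurd h (Set.notMem_empty y)
  rw [this]
  refine (measurable_gp ν hf L a (measurableSet_singleton 1)).union ?_
  split_ifs
  · exact measurableSet_DL ν hf L
  · exact MeasurableSet.empty

lemma fL_local (f : (V d → T) → V d → Fin k) (a0 : Fin k) (L : ℕ) (y y' : V d → T)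
    (h : ∀ u ∈ bx d L, y u = y' u) : fL ν f a0 L y = fL ν f a0 L y' := by
  have h1 : ∀ z, mg (bx d L) y z = mg (bx d L) y' z := by
    intro z
    funext u
    by_cases hu : u ∈ (bx d L : Set (V d))
    · rw [mg_mem hu, mg_mem hu]; exact h u (by exact_mod_cast hu)
    · rw [mg_not hu, mg_not hu]
  have h2 : ∀ a, gp ν f L a y = gp ν f L a y' := by
    intro a
    unfold gp
    simp only [h1]
  unfold fL
  simp only [h2]

lemma null_gp {f : (V d → T) → V d → Fin k} (hf : Measurable f) (L : ℕ) (a : Fin k) :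
    mq d ν {y | gp ν f L a y = 1 ∧ f y 0 ≠ a} = 0 := by
  have hm : MeasurableSet {y : V d → T | gp ν f L a y = 1 ∧ f y 0 ≠ a} :=
    (measurable_gp ν hf L a (measurableSet_singleton 1)).inter
      ((measurable_f0 hf) (measurableSet_singleton a)).compl
  rw [← (mp_mg ν ((bx d L : Finset (V d)) : Set (V d))).measure_preimage hm.nullMeasurableSet,
    Measure.prod_apply (measurable_mg _ hm)]
  rw [lintegral_eq_zero_iff (measurable_measure_prodMk_left (measurable_mg _ hm))]
  refine Filter.Eventually.of_forall fun z => ?_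
  show mq d ν (Prod.mk z ⁻¹' ((fun p : (V d → T) × (V d → T) => mg (bx d L) p.1 p.2) ⁻¹'
    {y : V d → T | gp ν f L a y = 1 ∧ f y 0 ≠ a})) = 0
  have hg : ∀ y, gp ν f L a (mg (bx d L) z y) = gp ν f L a z := by
    intro y
    unfold gp
    simp only [mg_mg]
  by_cases hz : gp ν f L a z = 1
  · have h2 : (Prod.mk z ⁻¹' ((fun p : (V d → T) × (V d → T) => mg (bx d L) p.1 p.2) ⁻¹'
        {y : V d → T | gp ν f L a y = 1 ∧ f y 0 ≠ a})) = {y' | f (mg (bx d L) z y') 0 = a}ᶜ := by
      ext y
      show (gp ν f L a (mg (bx d L) z y) = 1 ∧ f (mg (bx d L) z y) 0 ≠ a) ↔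
        ¬ (f (mg (bx d L) z y) 0 = a)
      rw [hg]
      exact ⟨fun h => h.2, fun h => ⟨hz, h⟩⟩
    have hm' : MeasurableSet {y' | f (mg (bx d L) z y') 0 = a} :=
      measurable_prodMk_left (measurableSet_gp hf L a)
    rw [h2]
    exact (prob_compl_eq_zero_iff hm').2 hz
  · have h2 : (Prod.mk z ⁻¹' ((fun p : (V d → T) × (V d → T) => mg (bx d L) p.1 p.2) ⁻¹'
        {y : V d → T | gp ν f L a y = 1 ∧ f y 0 ≠ a})) = ∅ := by
      ext y
      show (gp ν f L a (mg (bx d L) z y) = 1 ∧ f (mg (bx d L) z y) 0 ≠ a) ↔ False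
      rw [hg]
      exact ⟨fun h => hz h.1, fun h => h.elim⟩
    rw [h2]; exact measure_empty

lemma fL_bad {f : (V d → T) → V d → Fin k} (hf : Measurable f) (a0 : Fin k) (L : ℕ) :
    mq d ν {y | fL ν f a0 L y ≠ f y 0} ≤ mq d ν (DL ν f L) := by
  have hsub : {y : V d → T | fL ν f a0 L y ≠ f y 0} ⊆
      DL ν f L ∪ ⋃ a : Fin k, {y | gp ν f L a y = 1 ∧ f y 0 ≠ a} := by
    intro y hy
    by_cases h : ∃ a, gp ν f L a y = 1
    · obtain ⟨a, ha⟩ := h
      right
      rw [Set.mem_iUnion]
      refine ⟨a, ha, ?_⟩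
      intro h2
      exact hy ((fL_eq hf ha).trans h2.symm)
    · left
      push Not at h
      exact h
  refine (measure_mono hsub).trans ((measure_union_le _ _).trans ?_)
  have : mq d ν (⋃ a : Fin k, {y | gp ν f L a y = 1 ∧ f y 0 ≠ a}) = 0 := by
    rw [measure_iUnion_null_iff]
    exact fun a => null_gp ν hf L a
  rw [this, add_zero]

/-- On `DL` the coding radius exceeds `L`. -/
lemma not_coded_of_DL {f : (V d → T) → V d → Fin k} {L : ℕ} {y : V d → T} (hy : y ∈ DL ν f L)
    {r : ℕ} (hr : ∀ y' : V d → T, (∀ u : V d, (∀ i, |u i| ≤ (r : ℤ)) → y' u = y u) →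
      f y' 0 = f y 0) : L + 1 ≤ r := by
  by_contra hlt
  push Not at hlt
  have hrL : r ≤ L := by omega
  apply hy (f y 0)
  unfold gp
  have : {y' : V d → T | f (mg (bx d L) y y') 0 = f y 0} = Set.univ := by
    ext y'
    show f (mg (bx d L) y y') 0 = f y 0 ↔ True
    rw [iff_true]
    apply hr
    intro u hu
    apply mg_mem
    exact_mod_cast bx_mono hrL (mem_bx.2 hu)
  rw [this]; exact measure_univ

end Pool.Agent.Y782.TC
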