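import Pool.Agent.Y782.TC.Gen

set_option autoImplicit false
open MeasureTheory
open scoped ENNReal

namespace Pool.Agent.Y782.TC

/-! ### Height increments -/

/-- height increment -/
def dh (a b : Fin 3) : ℤ := if b = a + 1 then 1 else -1

lemma dh_cases (a b : Fin 3) : dh a b = 1 ∨ dh a b = -1 := by
  unfold dh
  split_ifs
  · left; rfl
  · right; rfl

lemma dh_mod : ∀ a b : Fin 3, a ≠ b → (dh a b - (b.val : ℤ) + (a.val : ℤ)) % 3 = 0 := by
  decide

lemma dh_square : ∀ a b c e : Fin 3, a ≠ b → b ≠ e → a ≠ c → c ≠ e →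
    dh a b + dh b e = dh a c + dh c e := by
  decide

/-- height along a path -/
def hs (g : ℕ → Fin 3) (n : ℕ) : ℤ := ∑ t ∈ Finset.range n, dh (g t) (g (t + 1))

lemma hs_succ (g : ℕ → Fin 3) (n : ℕ) : hs g (n + 1) = hs g n + dh (g n) (g (n + 1)) :=
  Finset.sum_range_succ _ _

lemma hs_zero (g : ℕ → Fin 3) : hs g 0 = 0 := rfl

lemma hs_parity (g : ℕ → Fin 3) (n : ℕ) : (hs g n - n) % 2 = 0 := by
  induction n with
  | zero => rfl
  | succ n ih =>
    rw [hs_succ]
    push_cast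
    rcases dh_cases (g n) (g (n + 1)) with h | h <;> omega

lemma hs_le (g : ℕ → Fin 3) (n : ℕ) : hs g n ≤ n := by
  induction n with
  | zero => exact le_rfl
  | succ n ih =>
    rw [hs_succ]
    push_cast
    rcases dh_cases (g n) (g (n + 1)) with h | h <;> omega

lemma hs_ge (g : ℕ → Fin 3) (n : ℕ) : -(n : ℤ) ≤ hs g n := by
  induction n with
  | zero => exact le_rfl
  | succ n ih =>
    rw [hs_succ]
    push_cast
    rcases dh_cases (g n) (g (n + 1)) with h | h <;> omega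

lemma hs_add (g : ℕ → Fin 3) (m n : ℕ) : hs g (m + n) = hs g m + hs (fun t => g (m + t)) n := by
  induction n with
  | zero => rw [Nat.add_zero, hs_zero, add_zero]
  | succ n ih =>
    rw [← Nat.add_assoc, hs_succ, ih, hs_succ, add_assoc]
    rfl

lemma hs_congr {g g' : ℕ → Fin 3} {n : ℕ} (h : ∀ t ≤ n, g t = g' t) : hs g n = hs g' n := by
  unfold hs
  refine Finset.sum_congr rfl fun t ht => ?_
  have := Finset.mem_range.1 ht
  rw [h t (by omega), h (t + 1) (by omega)]

lemma hs_mod {g : ℕ → Fin 3} (n : ℕ) (h : ∀ t, g t ≠ g (t + 1)) :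
    (hs g n - ((g n).val : ℤ) + ((g 0).val : ℤ)) % 3 = 0 := by
  induction n with
  | zero =>
    rw [hs_zero]
    have : (0 : ℤ) - ((g 0).val : ℤ) + ((g 0).val : ℤ) = 0 := by ring
    rw [this]; rfl
  | succ n ih =>
    rw [hs_succ]
    have := dh_mod (g n) (g (n + 1)) (h n)
    omega

lemma hs_strip {g g' : ℕ → Fin 3} (h : ∀ t, g t ≠ g (t + 1)) (h' : ∀ t, g' t ≠ g' (t + 1))
    (hg : ∀ t, g t ≠ g' t) (n : ℕ) :
    hs g n + dh (g n) (g' n) = dh (g 0) (g' 0) + hs g' n := by
  induction n with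
  | zero => rw [hs_zero, hs_zero]; ring
  | succ n ih =>
    rw [hs_succ, hs_succ]
    have := dh_square (g n) (g (n + 1)) (g' n) (g' (n + 1)) (h n) (hg (n + 1)) (hg n) (h' n)
    linarith

lemma hs_rect {G : ℕ → ℕ → Fin 3} (h1 : ∀ i j, G i j ≠ G (i + 1) j)
    (h2 : ∀ i j, G i j ≠ G i (j + 1)) (n m : ℕ) :
    hs (fun t => G t 0) n + hs (G n) m = hs (G 0) m + hs (fun t => G t m) n := by
  induction m with
  | zero => rw [hs_zero, hs_zero]; ring
  | succ m ih =>
    rw [hs_succ, hs_succ]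
    have := hs_strip (g := fun t => G t m) (g' := fun t => G t (m + 1)) (fun t => h1 t m)
      (fun t => h1 t (m + 1)) (fun t => h2 t m) n
    linarith

end Pool.Agent.Y782.TC
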