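import Pool.Agent.Y782.TC.Colour

set_option autoImplicit false
open Relation

namespace Pool.Agent.Y782.TC

open Pool.Agent.Y782.FF

variable {d : ℕ}

/-! ### Equivariance -/

/-- translation of seeds -/
def shs (v : V d) (s : Sd d) : Sd d := fun n u => s n (u + v)

lemma Aset_shs (M : ℕ) (s : Sd d) (n : ℕ) (v x : V d) :
    Aset M (shs v s) n x ↔ Aset M s n (x + v) := by
  unfold Aset shs
  constructor
  · rintro ⟨⟨c, hc, h1⟩, h2⟩
    refine ⟨⟨c + v, hc, ?_⟩, fun c' hc' h3 => ?_⟩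
    · rwa [add_sub_add_right_eq_sub]
    · have e : x + v - c' = x - (c' - v) := by abel
      rw [e] at h3 ⊢
      exact h2 (c' - v) (by rwa [sub_add_cancel]) h3
  · rintro ⟨⟨c, hc, h1⟩, h2⟩
    have e : x + v - c = x - (c - v) := by abel
    refine ⟨⟨c - v, by rwa [sub_add_cancel], by rwa [← e]⟩, fun c' hc' h3 => ?_⟩
    have := h2 (c' + v) hc' (by rwa [add_sub_add_right_eq_sub])
    rwa [add_sub_add_right_eq_sub] at this

lemma chain_shift {K K' : V d → Prop} {v : V d} (h : ∀ x, K' x → K (x + v)) {g z : V d}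
    (hc : ReflTransGen (stp K') g z) : ReflTransGen (stp K) (g + v) (z + v) := by
  induction hc with
  | refl => exact ReflTransGen.refl
  | tail _ hbc ih =>
    exact ReflTransGen.tail ih ⟨h _ hbc.1, h _ hbc.2.1, by
      rw [add_sub_add_right_eq_sub]; exact hbc.2.2⟩

lemma KK_shs (M : ℕ) (s : Sd d) (n : ℕ) (v x : V d) :
    KK M (shs v s) n x ↔ KK M s n (x + v) := by
  induction n generalizing x with
  | zero => exact Iff.rfl
  | succ n ih =>
    rw [KK_succ, KK_succ, ih]
    apply or_congr Iff.rfl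
    unfold QQ
    constructor
    · rintro ⟨g, hg, h | ⟨hK, z, a, hz, hza, ha⟩⟩
      · exact ⟨g + v, by rwa [add_sub_add_right_eq_sub], Or.inl ((Aset_shs M s n v g).1 h)⟩
      · exact ⟨g + v, by rwa [add_sub_add_right_eq_sub], Or.inr ⟨(ih g).1 hK, z + v, a + v,
          chain_shift (fun x hx => (ih x).1 hx) hz, by rwa [add_sub_add_right_eq_sub],
          (Aset_shs M s n v a).1 ha⟩⟩
    · rintro ⟨g, hg, h | ⟨hK, z, a, hz, hza, ha⟩⟩
      · refine ⟨g - v, ?_, Or.inl ((Aset_shs M s n v _).2 (by rwa [sub_add_cancel]))⟩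
        have : x - (g - v) = x + v - g := by abel
        rwa [this]
      · refine ⟨g - v, ?_, Or.inr ⟨(ih _).2 (by rwa [sub_add_cancel]), z - v, a - v, ?_, ?_,
          (Aset_shs M s n v _).2 (by rwa [sub_add_cancel])⟩⟩
        · have : x - (g - v) = x + v - g := by abel
          rwa [this]
        · have := chain_shift (K := KK M (shs v s) n) (K' := KK M s n) (v := -v)
            (fun x hx => (ih _).2 (by rwa [neg_add_cancel_right])) hz
          rwa [← sub_eq_add_neg, ← sub_eq_add_neg] at this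
        · rwa [sub_sub_sub_cancel_right]

lemma Lv_shs (M : ℕ) (s : Sd d) (n : ℕ) (v x : V d) :
    Lv M (shs v s) n x ↔ Lv M s n (x + v) := by
  unfold Lv; rw [KK_shs, KK_shs]

lemma Cov_shs (M : ℕ) (s : Sd d) (v x : V d) : Cov M (shs v s) x ↔ Cov M s (x + v) := by
  unfold Cov; simp only [KK_shs]

lemma lvl_eq_zero {M : ℕ} {s : Sd d} {x : V d} (h : ¬ ∃ n, Lv M s n x) : lvl M s x = 0 := by
  unfold lvl
  rw [dif_neg h]

lemma lvl_shs (M : ℕ) (s : Sd d) (v x : V d) : lvl M (shs v s) x = lvl M s (x + v) := by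
  by_cases h : ∃ n, Lv M s n (x + v)
  · obtain ⟨n, hn⟩ := h
    rw [lvl_eq hn, lvl_eq ((Lv_shs M s n v x).2 hn)]
  · rw [lvl_eq_zero h, lvl_eq_zero]
    rintro ⟨n, hn⟩
    exact h ⟨n, (Lv_shs M s n v x).1 hn⟩

lemma pw_shs (M : ℕ) (s : Sd d) (n : ℕ) (v x : V d) : pw M (shs v s) n x = pw M s n (x + v) := by
  unfold pw
  have : (fun w => w ∈ bx d (Dm M n + 9) ∧ Aset M (shs v s) n (x + w)) =
      (fun w => w ∈ bx d (Dm M n + 9) ∧ Aset M s n (x + v + w)) := by
    funext w
    rw [Aset_shs, add_right_comm]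
  rw [this]

lemma ph_shs (M : ℕ) (s : Sd d) (n : ℕ) (v x : V d) : ph M (shs v s) n x = ph M s n (x + v) := by
  unfold ph
  rw [pw_shs]
  congr 1
  unfold Trel shs
  simp only [add_right_comm]

lemma phs_shs (M : ℕ) (s : Sd d) (v x : V d) : phs M (shs v s) x = phs M s (x + v) := by
  unfold phs; rw [lvl_shs, ph_shs]

lemma Mis_shs (M : ℕ) (s : Sd d) (v x w : V d) : Mis M (shs v s) x w ↔ Mis M s (x + v) w := by
  unfold Mis; rw [phs_shs, phs_shs, add_right_comm]

lemma NN_shs (M : ℕ) (s : Sd d) (r n : ℕ) (v x : V d) :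
    NN M (shs v s) r n x ↔ NN M s r n (x + v) := by
  unfold NN
  simp only [KK_shs, Mis_shs, add_right_comm]

open Classical in
lemma rule_aux {p p' q q' : Prop} (h : p = p') (h' : q = q') {a b c : Fin 3} :
    (if p then a else if q then b else c) = (if p' then a else if q' then b else c) := by
  subst h; subst h'; rfl

lemma rule_shs (M : ℕ) (s : Sd d) (n : ℕ) (v x : V d) :
    rule M (shs v s) n x = rule M s n (x + v) := by
  unfold rule
  rw [phs_shs]
  have e1 := propext (NN_shs M s 1 n v x)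
  have e2 := propext (NN_shs M s 2 n v x)
  rw [rule_aux e1 e2]

lemma col_shs (M : ℕ) (s : Sd d) (v x : V d) : col M (shs v s) x = col M s (x + v) := by
  unfold col
  rw [rule_shs, lvl_shs]
  by_cases h : Cov M s (x + v)
  · rw [if_pos h, if_pos ((Cov_shs M s v x).2 h)]
  · rw [if_neg h, if_neg (fun h' => h ((Cov_shs M s v x).1 h'))]

/-! ### Locality -/

/-- agreement near `x`, on the first `N` levels -/
def Ag (N : ℕ) (s s' : Sd d) (x : V d) (r : ℕ) : Prop :=
  ∀ u ∈ bx d r, ∀ j < N, s j (x + u) = s' j (x + u)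

lemma Ag.symm {N : ℕ} {s s' : Sd d} {x : V d} {r : ℕ} (h : Ag N s s' x r) : Ag N s' s x r :=
  fun u hu j hj => (h u hu j hj).symm

lemma Ag.mono {N N' : ℕ} {s s' : Sd d} {x : V d} {r r' : ℕ} (h : Ag N s s' x r) (hr : r' ≤ r)
    (hN : N' ≤ N) : Ag N' s s' x r' := fun u hu j hj => h u (bx_mono hr hu) j (by omega)

lemma Ag.move {N : ℕ} {s s' : Sd d} {x z : V d} {r r' t : ℕ} (h : Ag N s s' x r)
    (hz : z - x ∈ bx d t) (hr : t + r' ≤ r) : Ag N s s' z r' := by
  intro u hu j hj
  have : z + u = x + ((z - x) + u) := by abel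
  rw [this]
  exact h _ (bx_mono hr (bx_add hz hu)) j hj

lemma Aset_imp {M : ℕ} {s s' : Sd d} {n : ℕ} {x : V d}
    (h : Ag (n + 1) s s' x (rho M n + ww M n))
    (hA : Aset M s n x) : Aset M s' n x := by
  obtain ⟨⟨c, hc, h1⟩, h2⟩ := hA
  refine ⟨⟨c, ?_, h1⟩, fun c' hc' h3 => ?_⟩
  · have e := h (c - x) (by
      rw [← neg_sub]; exact bx_mono (by omega) (bx_neg h1)) n (Nat.lt_succ_self n)
    rw [add_sub_cancel] at e
    rw [← e]; exact hc
  · have e := h (c' - x) (by rw [← neg_sub]; exact bx_neg h3) n (Nat.lt_succ_self n)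
    rw [add_sub_cancel] at e
    exact h2 c' (by rw [e]; exact hc') h3

lemma Aset_local {M : ℕ} {s s' : Sd d} {n : ℕ} {x : V d}
    (h : Ag (n + 1) s s' x (rho M n + ww M n)) :
    Aset M s n x ↔ Aset M s' n x := ⟨Aset_imp h, Aset_imp h.symm⟩

lemma kap_succ (M n : ℕ) : kap M (n + 1) = kap M n + Dm M n + rho M n + ww M n + 9 := rfl

lemma kap_mono {M n m : ℕ} (h : n ≤ m) : kap M n ≤ kap M m := by
  induction m, h using Nat.le_induction with
  | base => exact le_rfl
  | succ m _ ih => rw [kap_succ]; omega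

lemma KK_imp {M : ℕ} (hM : 48 ≤ M) {n : ℕ} : ∀ {s s' : Sd d} {x : V d},
    Ag n s s' x (kap M n) → KK M s n x → KK M s' n x := by
  induction n with
  | zero => intro s s' x _ h; exact h
  | succ n ih =>
    intro s s' x h hK
    rw [kap_succ] at h
    rcases KK_succ.1 hK with hK | ⟨g, hg, hcase⟩
    · exact KK_succ.2 (Or.inl (ih (h.mono (by omega) (by omega)) hK))
    · refine KK_succ.2 (Or.inr ?_)
      unfold QQ
      have hgx : g - x ∈ bx d 3 := by rw [← neg_sub]; exact bx_neg hg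
      rcases hcase with hA | ⟨hgK, z, a, hz, hza, ha⟩
      · exact ⟨g, hg, Or.inl (Aset_imp (h.move hgx (by omega)) hA)⟩
      · have hch : ∀ t, ReflTransGen (stp (KK M s n)) g t →
            ReflTransGen (stp (KK M s' n)) g t := by
          intro t ht
          induction ht with
          | refl => exact ReflTransGen.refl
          | @tail b c hgb hbc ihc =>
            have hb : b - g ∈ bx d (Dm M n) := diam_all hM s n g b hgb
            have hc : c - g ∈ bx d (Dm M n) := diam_all hM s n g c (ReflTransGen.tail hgb hbc)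
            have hgA : Ag n s s' g (Dm M n + kap M n) :=
              (h.mono le_rfl (Nat.le_succ n)).move hgx (by omega)
            exact ReflTransGen.tail ihc ⟨ih (hgA.move hb le_rfl) hbc.1,
              ih (hgA.move hc le_rfl) hbc.2.1, hbc.2.2⟩
        have hzg : z - g ∈ bx d (Dm M n) := diam_all hM s n g z hz
        refine ⟨g, hg, Or.inr ⟨ih ((h.mono le_rfl (Nat.le_succ n)).move hgx (by omega)) hgK,
          z, a, hch z hz, hza, ?_⟩⟩
        refine Aset_imp ?_ ha
        have hax : a - x ∈ bx d (Dm M n + 9) := by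
          have : a - x = (g - x) + (z - g) + -(z - a) := by abel
          rw [this]
          exact bx_mono (by omega) (bx_add (bx_add hgx hzg) (bx_neg hza))
        exact h.move hax (by omega)

lemma KK_local {M : ℕ} (hM : 48 ≤ M) {n : ℕ} {s s' : Sd d} {x : V d}
    (h : Ag n s s' x (kap M n)) :
    KK M s n x ↔ KK M s' n x := ⟨KK_imp hM h, KK_imp hM h.symm⟩

lemma Lv_local {M : ℕ} (hM : 48 ≤ M) {n : ℕ} {s s' : Sd d} {x : V d}
    (h : Ag (n + 1) s s' x (kap M (n + 1))) : Lv M s n x ↔ Lv M s' n x := by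
  unfold Lv
  rw [KK_local hM h, KK_local hM (h.mono (kap_mono (Nat.le_succ n)) (Nat.le_succ n))]

lemma ph_local {M : ℕ} {n : ℕ} {s s' : Sd d} {x : V d}
    (h : Ag (n + 1) s s' x (Dm M n + 9 + (rho M n + ww M n)))
    (hp : pw M s n x ∈ bx d (Dm M n + 9)) :
    ph M s n x = ph M s' n x := by
  have h1 : pw M s n x = pw M s' n x := by
    unfold pw
    congr 1
    funext w
    apply propext
    apply and_congr_right
    intro hw
    exact Aset_local (h.move (by rwa [add_sub_cancel_left]) le_rfl)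
  unfold ph
  rw [← h1]
  congr 1
  unfold Trel
  ext t
  constructor
  · rintro ⟨u, hu, h2, h3⟩
    refine ⟨u, ?_, h2, h3⟩
    rw [← h u _ n (Nat.lt_succ_self n)]
    · exact hu
    · have : u = pw M s n x - (pw M s n x - u) := by abel
      rw [this]
      exact bx_mono (by omega) (bx_sub hp h2)
  · rintro ⟨u, hu, h2, h3⟩
    refine ⟨u, ?_, h2, h3⟩
    rw [h u _ n (Nat.lt_succ_self n)]
    · exact hu
    · have : u = pw M s n x - (pw M s n x - u) := by abel
      rw [this]
      exact bx_mono (by omega) (bx_sub hp h2)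

lemma phs_local {M : ℕ} (hM : 48 ≤ M) {m n : ℕ} (hmn : m ≤ n) {s s' : Sd d} {x : V d}
    (h : Ag (n + 1) s s' x (kap M (n + 1))) (hx : Lv M s m x) : phs M s x = phs M s' x := by
  have h' : Ag (m + 1) s s' x (kap M (m + 1)) :=
    h.mono (kap_mono (Nat.succ_le_succ hmn)) (by omega)
  have hx' : Lv M s' m x := (Lv_local hM h').1 hx
  unfold phs
  rw [lvl_eq hx, lvl_eq hx']
  rw [kap_succ] at h'
  exact ph_local (h'.mono (by omega) le_rfl) (pw_spec hM hx).1

lemma NN_imp {M : ℕ} (hM : 48 ≤ M) {r n : ℕ} {s s' : Sd d} {x : V d}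
    (h : Ag (n + 1) s s' x (kap M (n + 1) + r)) (hx : Lv M s n x) (hN : NN M s r n x) :
    NN M s' r n x := by
  obtain ⟨w, hw, hK, hmis⟩ := hN
  have hw' : x + w - x ∈ bx d r := by rwa [add_sub_cancel_left]
  have hAw : Ag (n + 1) s s' (x + w) (kap M (n + 1)) := h.move hw' (by omega)
  obtain ⟨m, hm, hLm⟩ := exists_Lv hK
  refine ⟨w, hw, KK_imp hM (hAw.mono (kap_mono (Nat.le_succ n)) (Nat.le_succ n)) hK, ?_⟩
  unfold Mis at *
  rw [← phs_local hM hm.le hAw hLm, ← phs_local hM le_rfl (h.mono (by omega) le_rfl) hx]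
  exact hmis

theorem col_local {M : ℕ} (hM : 48 ≤ M) {n : ℕ} {s s' : Sd d} {x : V d}
    (h : Ag (n + 1) s s' x (kap M (n + 1) + 2)) (hx : KK M s (n + 1) x) :
    col M s x = col M s' x := by
  obtain ⟨m, hm, hL⟩ := exists_Lv hx
  have hmn : m ≤ n := by omega
  have hk : kap M (m + 1) ≤ kap M (n + 1) := kap_mono (Nat.succ_le_succ hmn)
  have h' : Ag (m + 1) s s' x (kap M (m + 1) + 2) := h.mono (by omega) (by omega)
  have hL' : Lv M s' m x := (Lv_local hM (h'.mono (by omega) le_rfl)).1 hL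
  have e1 : NN M s 1 m x ↔ NN M s' 1 m x :=
    ⟨NN_imp hM (h'.mono (by omega) le_rfl) hL, NN_imp hM (h'.symm.mono (by omega) le_rfl) hL'⟩
  have e2 : NN M s 2 m x ↔ NN M s' 2 m x := ⟨NN_imp hM h' hL, NN_imp hM h'.symm hL'⟩
  rw [col_of_Lv hL, col_of_Lv hL']
  unfold rule
  rw [phs_local hM le_rfl (h'.mono (by omega) le_rfl) hL]
  rw [rule_aux (propext e1) (propext e2)]

end Pool.Agent.Y782.TC
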