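import Pool.Agent.Y782.TC.Prob

set_option autoImplicit false
open MeasureTheory
open scoped ENNReal

namespace Pool.Agent.Y782.TC

open Pool.Agent.Y782.FF

variable {d : ℕ}

/-- all levels of seeds -/
noncomputable abbrev PP (d : ℕ) (p : ℕ → unitInterval) : Measure (Sd d) :=
  Measure.infinitePi fun n => P1 d (p n)

lemma measurableSet_notAset (M n : ℕ) (x : V d) :
    MeasurableSet {s : Sd d | ∀ j < n, ¬ Aset M s j x} := by
  have : {s : Sd d | ∀ j < n, ¬ Aset M s j x} =
      ⋂ j : ℕ, ⋂ _ : j < n, ((fun s : Sd d => s j) ⁻¹' {ω | A1 (rho M j) (ww M j) ω x})ᶜ := by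
    ext s
    simp only [Set.mem_iInter]
    rfl
  rw [this]
  exact MeasurableSet.iInter fun j => MeasurableSet.iInter fun _ =>
    ((measurable_pi_apply j) (measurableSet_A1 _ _ x)).compl

lemma PP_bound {M : ℕ} {p : ℕ → unitInterval} {δ : ℝ≥0∞}
    (h : ∀ n (x : V d), P1 d (p n) {ω | ¬ A1 (rho M n) (ww M n) ω x} ≤ δ) (n : ℕ) (x : V d) :
    PP d p {s | ∀ j < n, ¬ Aset M s j x} ≤ δ ^ n := by
  have : {s : Sd d | ∀ j < n, ¬ Aset M s j x} = Set.pi ((Finset.range n : Finset ℕ) : Set ℕ)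
      (fun j => {ω : V d → Bool | ¬ A1 (rho M j) (ww M j) ω x}) := by
    ext s
    simp only [Set.mem_pi, Finset.mem_coe, Finset.mem_range]
    rfl
  have hm : ∀ j ∈ Finset.range n,
      MeasurableSet {ω : V d → Bool | ¬ A1 (rho M j) (ww M j) ω x} := fun j _ =>
    (measurableSet_A1 _ _ x).compl
  rw [this, Measure.infinitePi_pi _ hm]
  calc ∏ j ∈ Finset.range n, P1 d (p j) {ω | ¬ A1 (rho M j) (ww M j) ω x}
      ≤ ∏ _j ∈ Finset.range n, δ := Finset.prod_le_prod' fun j _ => h j x
    _ = δ ^ n := by rw [Finset.prod_const, Finset.card_range]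

lemma swap_map (p : ℕ → unitInterval) :
    (Measure.infinitePi fun _ : V d => Measure.infinitePi fun n : ℕ => ber (p n)).map
      (fun (y : V d → ℕ → Bool) (n : ℕ) (v : V d) => y v n) = PP d p := by
  have hA := Measure.infinitePi_map_curry (ι := V d) (κ := ℕ) (X := Bool)
    (fun _ n => ber (p n))
  have hB := Measure.infinitePi_map_curry (ι := ℕ) (κ := V d) (X := Bool)
    (fun n _ => ber (p n))
  have hC : (Measure.infinitePi fun q : V d × ℕ => ber (p q.2)).map
      (fun (g : V d × ℕ → Bool) (q : ℕ × V d) => g (q.2, q.1)) =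
      Measure.infinitePi fun q : ℕ × V d => ber (p q.1) := by
    refine Measure.eq_infinitePi _ fun s t ht => ?_
    have hm : Measurable (fun (g : V d × ℕ → Bool) (q : ℕ × V d) => g (q.2, q.1)) := by fun_prop
    rw [Measure.map_apply hm (.pi s.countable_toSet fun _ _ => ht _)]
    have : (fun (g : V d × ℕ → Bool) (q : ℕ × V d) => g (q.2, q.1)) ⁻¹'
        ((s : Set (ℕ × V d)).pi t) =
        Set.pi (↑(s.map (Equiv.prodComm ℕ (V d)).toEmbedding) : Set (V d × ℕ))
          (fun q => t (q.2, q.1)) := by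
      ext g
      simp only [Set.mem_preimage, Set.mem_pi, Finset.mem_coe, Finset.mem_map,
        forall_exists_index, and_imp]
      constructor
      · rintro h i j hj rfl
        exact h j hj
      · intro h i hi
        exact h (i.2, i.1) i hi rfl
    rw [this, Measure.infinitePi_pi _ (fun i _ => ht _), Finset.prod_map]
    rfl
  show _ = Measure.infinitePi fun n => Measure.infinitePi fun _ : V d => ber (p n)
  rw [← hA, ← hB, ← hC, Measure.map_map (by fun_prop) (by fun_prop),
    Measure.map_map (by fun_prop) (by fun_prop)]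
  rfl

/-- seeds from uniform labels -/
def Phi (φ : unitInterval → ℕ → Bool) (y : Om d) : Sd d := fun n v => φ (y v) n

lemma measurable_Phi {φ : unitInterval → ℕ → Bool} (hφ : Measurable φ) :
    Measurable (Phi φ : Om d → Sd d) := by
  unfold Phi
  fun_prop

lemma exists_Phi (d : ℕ) (p : ℕ → unitInterval) : ∃ φ : unitInterval → ℕ → Bool, Measurable φ ∧
    (mu d).map (Phi φ) = PP d p := by
  obtain ⟨φ, hφ, hmap⟩ := Measure.exists_measurable_map_eq
    (Measure.infinitePi fun n : ℕ => ber (p n))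
  refine ⟨φ, hφ, ?_⟩
  have h1 : (mu d).map (fun (y : Om d) (v : V d) => φ (y v)) =
      Measure.infinitePi fun _ : V d => Measure.infinitePi fun n : ℕ => ber (p n) := by
    have := Measure.infinitePi_map_pi (fun _ : V d => (volume : Measure unitInterval))
      (f := fun _ => φ) (fun _ => hφ)
    rw [this]
    simp only [hmap]
  rw [← swap_map, ← h1, Measure.map_map (by fun_prop) (by fun_prop)]
  rfl

lemma Phi_shift (φ : unitInterval → ℕ → Bool) (y : Om d) (v : V d) :
    Phi φ (fun u => y (u + v)) = shs v (Phi φ y) := rfl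

/-- The coding radius at the origin (for the labelling `y`). -/
noncomputable def RR {T : Type*} (f : (V d → T) → V d → Fin 3) (y : V d → T) : ℝ≥0∞ :=
  ⨅ (r : ℕ) (_ : ∀ y' : V d → T, (∀ u : V d, (∀ i, |u i| ≤ (r : ℤ)) → y' u = y u) →
    f y' 0 = f y 0), (r : ℝ≥0∞)

lemma kap_le {M : ℕ} (hM : 48 ≤ M) (n : ℕ) : kap M (n + 1) + 2 ≤ 6 * M ^ (n + 1) := by
  have h1 := kap_bound hM (n + 1)
  rw [rho_succ] at h1
  have h2 : M * kap M (n + 1) ≤ M * (5 * rho M n) := by
    calc M * kap M (n + 1) ≤ 5 * (M * rho M n) := h1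
      _ = M * (5 * rho M n) := by ring
  have h3 : kap M (n + 1) ≤ 5 * rho M n := Nat.le_of_mul_le_mul_left h2 (by omega)
  have h4 : 2 ≤ rho M n := by
    unfold rho; rw [pow_succ]
    have : 1 ≤ M ^ n := Nat.one_le_pow _ _ (by omega)
    nlinarith
  have h5 : rho M n = M ^ (n + 1) := rfl
  omega

lemma RR_le {M : ℕ} (hM : 48 ≤ M) {φ : unitInterval → ℕ → Bool} {y : Om d} {n : ℕ}
    (h : Aset M (Phi φ y) n 0) :
    RR (fun y v => col M (Phi φ y) v) y ≤ ((6 * M ^ (n + 1) : ℕ) : ℝ≥0∞) := by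
  refine (iInf₂_le (kap M (n + 1) + 2) ?_).trans (by exact_mod_cast kap_le hM n)
  intro y' hy'
  show col M (Phi φ y') 0 = col M (Phi φ y) 0
  symm
  refine col_local hM ?_ (KK_of_Aset h)
  intro u hu j _
  show φ (y (0 + u)) j = φ (y' (0 + u)) j
  rw [zero_add, hy' u (mem_bx.1 hu)]

open Classical in
/-- the first level at which the origin is deep -/
noncomputable def fl (M : ℕ) (s : Sd d) : ℕ := if h : ∃ n, Aset M s n 0 then Nat.find h else 0

lemma fl_spec {M : ℕ} {s : Sd d} (h : ∃ n, Aset M s n 0) :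
    Aset M s (fl M s) 0 ∧ ∀ j < fl M s, ¬ Aset M s j 0 := by
  classical
  unfold fl
  rw [dif_pos h]
  exact ⟨Nat.find_spec h, fun j hj => Nat.find_min h hj⟩

lemma measurableSet_Aset (M n : ℕ) (x : V d) : MeasurableSet {s : Sd d | Aset M s n x} := by
  have : {s : Sd d | Aset M s n x} = (fun s : Sd d => s n) ⁻¹' {ω | A1 (rho M n) (ww M n) ω x} :=
    rfl
  rw [this]
  exact (measurable_pi_apply n) (measurableSet_A1 _ _ x)

lemma measurable_fl (M : ℕ) : Measurable (fl M : Sd d → ℕ) := by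
  refine measurable_to_countable' fun n => ?_
  have : (fl M : Sd d → ℕ) ⁻¹' {n} = ({s : Sd d | Aset M s n 0} ∩ {s | ∀ j < n, ¬ Aset M s j 0}) ∪
      ((⋂ m, {s : Sd d | Aset M s m 0}ᶜ) ∩ {_s | 0 = n}) := by
    ext s
    simp only [Set.mem_preimage, Set.mem_singleton_iff, Set.mem_union, Set.mem_inter_iff,
      Set.mem_iInter, Set.mem_compl_iff]
    constructor
    · rintro rfl
      by_cases h : ∃ n, Aset M s n 0
      · left; exact fl_spec h
      · right
        refine ⟨fun m hm => h ⟨m, hm⟩, ?_⟩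
        show 0 = fl M s
        unfold fl
        rw [dif_neg h]
    · rintro (⟨h1, h2⟩ | ⟨h1, h2⟩)
      · have h3 := fl_spec ⟨n, h1⟩
        rcases lt_trichotomy (fl M s) n with h | h | h
        · exact absurd h3.1 (h2 _ h)
        · exact h
        · exact absurd h1 (h3.2 _ h)
      · have h : ¬ ∃ n, Aset M s n 0 := by
          rintro ⟨m, hm⟩
          exact h1 m hm
        have h2' : 0 = n := h2
        unfold fl
        rw [dif_neg h]
        exact h2'
  rw [this]
  exact ((measurableSet_Aset M n 0).inter (measurableSet_notAset M n 0)).union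
    ((MeasurableSet.iInter fun m => (measurableSet_Aset M m 0).compl).inter (MeasurableSet.const _))

lemma col_sum {u v : V d} (h : ∑ i, |u i - v i| = 1) : v - u ∈ bx d 1 ∧ sm (v - u) % 2 = 1 := by
  constructor
  · rw [mem_bx]
    intro i
    have h1 : |u i - v i| ≤ ∑ i, |u i - v i| :=
      Finset.single_le_sum (f := fun i => |u i - v i|) (fun _ _ => abs_nonneg _)
        (Finset.mem_univ i)
    show |v i - u i| ≤ _
    rw [abs_sub_comm]
    push_cast
    omega
  · have h1 : ∀ s : Finset (Fin d), (∑ i ∈ s, (v i - u i)) % 2 = (∑ i ∈ s, |u i - v i|) % 2 := by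
      classical
      intro s
      induction s using Finset.induction_on with
      | empty => rfl
      | insert a s ha ih =>
        rw [Finset.sum_insert ha, Finset.sum_insert ha]
        rcases abs_cases (u a - v a) with h | h <;> omega
    show (∑ i, (v i - u i)) % 2 = 1
    rw [h1, h]
    norm_num

/-- Existence: for `α < 1` there is a finitary 3-colouring with finite `α`-moment. -/
theorem exists_col (e : ℕ) {α : ℝ} (h0 : 0 < α) (h1 : α < 1) :
    ∃ f : Om (e + 1) → V (e + 1) → Fin 3, Measurable f ∧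
      (∀ (y : Om (e + 1)) (v : V (e + 1)), f (fun u => y (u + v)) = fun u => f y (u + v)) ∧
      (∀ᵐ y ∂(mu (e + 1)), ∀ u v : V (e + 1), ∑ i, |u i - v i| = 1 → f y u ≠ f y v) ∧
      ∃ N : Om (e + 1) → ℕ, Measurable N ∧ (∀ᵐ y ∂(mu (e + 1)), RR f y ≤ N y) ∧
        ∫⁻ y, (N y : ℝ≥0∞) ^ α ∂(mu (e + 1)) < ⊤ := by
  classical
  obtain ⟨M, hM54, hMα⟩ := exists_M e h1
  have hM : 48 ≤ M := by omega
  have hMpos : 0 < M := by omega
  choose p hp using fun n => level_bound hM54 n e
  set δ : ℝ≥0∞ := ENNReal.ofReal (dl e M) with hδ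
  have hPP := PP_bound (d := e + 1) (M := M) (p := p) (δ := δ) (fun n x => hp n x)
  obtain ⟨φ, hφ, hmap⟩ := exists_Phi (e + 1) p
  have hmp : MeasurePreserving (Phi φ : Om (e + 1) → Sd (e + 1)) (mu (e + 1)) (PP (e + 1) p) :=
    ⟨measurable_Phi hφ, hmap⟩
  set A : ℝ≥0∞ := (M : ℝ≥0∞) ^ α with hA
  have hM1 : (1 : ℝ≥0∞) ≤ A := by
    rw [hA]
    apply ENNReal.one_le_rpow _ h0
    exact_mod_cast hMpos
  have hAδ : A * δ < 1 := by
    rw [hA, hδ, ← ENNReal.ofReal_natCast, ENNReal.ofReal_rpow_of_nonneg (Nat.cast_nonneg _) h0.le,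
      ← ENNReal.ofReal_mul (by positivity)]
    rw [ENNReal.ofReal_lt_one]
    exact hMα
  have hδ1 : δ < 1 := by
    refine lt_of_le_of_lt ?_ hAδ
    calc δ = 1 * δ := (one_mul δ).symm
      _ ≤ A * δ := by gcongr
  -- covering
  have hcov : ∀ x : V (e + 1), ∀ᵐ y ∂(mu (e + 1)), ∃ n, Aset M (Phi φ y) n x := by
    intro x
    have hz : mu (e + 1) {y | ¬ ∃ n, Aset M (Phi φ y) n x} = 0 := by
      have hb : ∀ n : ℕ, mu (e + 1) {y | ¬ ∃ n, Aset M (Phi φ y) n x} ≤ δ ^ n := by
        intro n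
        refine le_trans (measure_mono (t := Phi φ ⁻¹' {s | ∀ j < n, ¬ Aset M s j x}) ?_) ?_
        · intro y hy j _ hj
          exact hy ⟨j, hj⟩
        · rw [hmp.measure_preimage (measurableSet_notAset M n x).nullMeasurableSet]
          exact hPP n x
      exact le_antisymm (ge_of_tendsto' (ENNReal.tendsto_pow_atTop_nhds_zero_of_lt_one hδ1) hb)
        bot_le
    rw [ae_iff]
    exact hz
  refine ⟨fun y v => col M (Phi φ y) v, ?_, ?_, ?_,
    fun y => 6 * M ^ (fl M (Phi φ y) + 1), ?_, ?_, ?_⟩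
  · exact measurable_pi_lambda _ fun v => (measurable_col hM v).comp (measurable_Phi hφ)
  · intro y v
    funext u
    show col M (Phi φ (fun u => y (u + v))) u = col M (Phi φ y) (u + v)
    rw [Phi_shift, col_shs]
  · filter_upwards [ae_all_iff.2 hcov] with y hy u v huv
    obtain ⟨h2, h3⟩ := col_sum huv
    have := col_proper hM (s := Phi φ y) (fun x => by
      obtain ⟨n, hn⟩ := hy x
      exact ⟨n, KK_of_Aset hn⟩) (x := u) h2 h3
    rw [add_sub_cancel] at this
    exact this
  · have h2 : Measurable fun n : ℕ => 6 * M ^ (n + 1) := measurable_of_countable _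
    exact h2.comp ((measurable_fl M).comp (measurable_Phi hφ))
  · filter_upwards [hcov 0] with y hy
    exact RR_le hM (fl_spec hy).1
  · have hterm : ∀ n : ℕ, ((6 * M ^ (n + 1) : ℕ) : ℝ≥0∞) ^ α =
        ((6 * M : ℕ) : ℝ≥0∞) ^ α * A ^ n := by
      intro n
      have h2 : ((6 * M ^ (n + 1) : ℕ) : ℝ≥0∞) = ((6 * M : ℕ) : ℝ≥0∞) * (M : ℝ≥0∞) ^ n := by
        push_cast; ring
      rw [h2, ENNReal.mul_rpow_of_nonneg _ _ h0.le, hA, ← ENNReal.rpow_natCast,
        ← ENNReal.rpow_mul, mul_comm (n : ℝ) α, ENNReal.rpow_mul, ENNReal.rpow_natCast]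
    set EE : ℕ → Set (Om (e + 1)) := fun n => Phi φ ⁻¹' {s | ∀ j < n, ¬ Aset M s j 0} with hEE
    have hEEm : ∀ n, MeasurableSet (EE n) := fun n =>
      measurable_Phi hφ (measurableSet_notAset M n 0)
    calc ∫⁻ y, ((6 * M ^ (fl M (Phi φ y) + 1) : ℕ) : ℝ≥0∞) ^ α ∂(mu (e + 1))
        ≤ ∫⁻ y, ∑' n : ℕ, (EE n).indicator (fun _ => ((6 * M : ℕ) : ℝ≥0∞) ^ α * A ^ n) y
            ∂(mu (e + 1)) := by
          refine lintegral_mono_ae ?_
          filter_upwards [hcov 0] with y hy
          have h2 := fl_spec hy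
          rw [hterm]
          have h3 : y ∈ EE (fl M (Phi φ y)) := h2.2
          calc ((6 * M : ℕ) : ℝ≥0∞) ^ α * A ^ (fl M (Phi φ y))
              = (EE (fl M (Phi φ y))).indicator
                (fun _ => ((6 * M : ℕ) : ℝ≥0∞) ^ α * A ^ (fl M (Phi φ y))) y := by
                rw [Set.indicator_of_mem h3]
            _ ≤ _ := ENNReal.le_tsum (f := fun n =>
                (EE n).indicator (fun _ => ((6 * M : ℕ) : ℝ≥0∞) ^ α * A ^ n) y)
                (fl M (Phi φ y))
      _ = ∑' n : ℕ, ∫⁻ y, (EE n).indicator (fun _ => ((6 * M : ℕ) : ℝ≥0∞) ^ α * A ^ n) y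
            ∂(mu (e + 1)) := by
          rw [lintegral_tsum]
          intro n
          exact (measurable_const.indicator (hEEm n)).aemeasurable
      _ ≤ ∑' n : ℕ, ((6 * M : ℕ) : ℝ≥0∞) ^ α * (A * δ) ^ n := by
          refine ENNReal.tsum_le_tsum fun n => ?_
          rw [lintegral_indicator_const (hEEm n), mul_pow, mul_assoc]
          gcongr
          rw [hEE, hmp.measure_preimage (measurableSet_notAset M n 0).nullMeasurableSet]
          exact hPP n 0
      _ = ((6 * M : ℕ) : ℝ≥0∞) ^ α * (1 - A * δ)⁻¹ := by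
          rw [ENNReal.tsum_mul_left, ENNReal.tsum_geometric]
      _ < ⊤ := by
          apply ENNReal.mul_lt_top
          · exact ENNReal.rpow_lt_top_of_nonneg h0.le (ENNReal.natCast_ne_top _)
          · rw [ENNReal.inv_lt_top]
            exact tsub_pos_of_lt hAδ

end Pool.Agent.Y782.TC
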