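import Pool.Agent.Y782.TC.Local

set_option autoImplicit false
open MeasureTheory
open scoped ENNReal

namespace Pool.Agent.Y782.TC

open Pool.Agent.Y782.FF

variable {d : ℕ}

/-! ### Measurability -/

/-- restriction to finitely many seeds -/
def rst (x : V d) (r N : ℕ) (s : Sd d) : (Fin N × (bx d r : Finset (V d))) → Bool :=
  fun q => s q.1 (x + (q.2 : V d))

lemma measurable_rst (x : V d) (r N : ℕ) : Measurable (rst x r N : Sd d → _) :=
  measurable_pi_lambda _ fun q =>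
    (measurable_pi_apply (x + (q.2 : V d))).comp (measurable_pi_apply ((q.1 : Fin N) : ℕ))

lemma meas_of_Ag {E : Set (Sd d)} {x : V d} {r N : ℕ}
    (h : ∀ s s', Ag N s s' x r → s ∈ E → s' ∈ E) : MeasurableSet E := by
  have : E = rst x r N ⁻¹' (rst x r N '' E) := by
    ext s
    constructor
    · intro hs; exact ⟨s, hs, rfl⟩
    · rintro ⟨s', hs', he⟩
      refine h s' s ?_ hs'
      intro u hu j hj
      exact congrFun he (⟨j, hj⟩, ⟨u, hu⟩)
  rw [this]
  exact measurable_rst x r N (Set.toFinite _).measurableSet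

lemma measurableSet_KK {M : ℕ} (hM : 48 ≤ M) (n : ℕ) (x : V d) :
    MeasurableSet {s : Sd d | KK M s n x} :=
  meas_of_Ag (x := x) (r := kap M n) (N := n) fun _ _ h hs => KK_imp hM h hs

lemma measurableSet_KKcol {M : ℕ} (hM : 48 ≤ M) (n : ℕ) (x : V d) (c : Fin 3) :
    MeasurableSet {s : Sd d | KK M s (n + 1) x ∧ col M s x = c} := by
  refine meas_of_Ag (x := x) (r := kap M (n + 1) + 2) (N := n + 1) ?_
  rintro s s' h ⟨h1, h2⟩
  refine ⟨KK_imp hM (h.mono (by omega) le_rfl) h1, ?_⟩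
  rw [← col_local hM h h1]
  exact h2

lemma col_of_not_Cov {M : ℕ} {s : Sd d} {x : V d} (h : ¬ Cov M s x) : col M s x = 0 := by
  unfold col
  rw [if_neg h]

lemma measurable_col {M : ℕ} (hM : 48 ≤ M) (x : V d) : Measurable fun s : Sd d => col M s x := by
  refine measurable_to_countable' fun c => ?_
  have : (fun s : Sd d => col M s x) ⁻¹' {c} =
      (⋃ n, {s : Sd d | KK M s (n + 1) x ∧ col M s x = c}) ∪
        ((⋂ n, {s : Sd d | KK M s (n + 1) x}ᶜ) ∩ {_s | (0 : Fin 3) = c}) := by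
    ext s
    simp only [Set.mem_preimage, Set.mem_singleton_iff, Set.mem_union, Set.mem_iUnion,
      Set.mem_inter_iff, Set.mem_iInter, Set.mem_compl_iff]
    constructor
    · intro h
      by_cases hc : Cov M s x
      · obtain ⟨n, hn⟩ := hc
        left
        exact ⟨n, hn, h⟩
      · right
        refine ⟨fun n hn => hc ⟨n, hn⟩, ?_⟩
        rw [col_of_not_Cov hc] at h
        exact h
    · rintro (⟨n, hn, h⟩ | ⟨h1, h2⟩)
      · exact h
      · have hc : ¬ Cov M s x := by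
          rintro ⟨n, hn⟩
          exact h1 n hn
        rw [col_of_not_Cov hc]
        exact h2
  rw [this]
  refine MeasurableSet.union (MeasurableSet.iUnion fun n => measurableSet_KKcol hM n x c) ?_
  exact (MeasurableSet.iInter fun n => (measurableSet_KK hM (n + 1) x).compl).inter
    (MeasurableSet.const _)

/-! ### One level -/

/-- deep inside some box and not close to the boundary of any box, one level -/
def A1 (ρ w : ℕ) (ω : V d → Bool) (x : V d) : Prop :=
  (∃ c, ω c = true ∧ x - c ∈ bx d (ρ - w)) ∧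
    ∀ c, ω c = true → x - c ∈ bx d (ρ + w) → x - c ∈ bx d (ρ - w)

lemma Aset_iff {M : ℕ} {s : Sd d} {n : ℕ} {x : V d} :
    Aset M s n x ↔ A1 (rho M n) (ww M n) (s n) x := Iff.rfl

/-- Bernoulli -/
noncomputable def ber (p : unitInterval) : Measure Bool :=
  ENNReal.ofReal (p : ℝ) • Measure.dirac true + ENNReal.ofReal (1 - (p : ℝ)) • Measure.dirac false

lemma ber_true (p : unitInterval) : ber p {true} = ENNReal.ofReal (p : ℝ) := by
  simp [ber]

lemma ber_false (p : unitInterval) : ber p {false} = ENNReal.ofReal (1 - (p : ℝ)) := by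
  simp [ber]

instance ber_prob (p : unitInterval) : IsProbabilityMeasure (ber p) := by
  constructor
  simp only [ber, Measure.coe_add, Measure.coe_smul, Pi.add_apply, Pi.smul_apply, measure_univ,
    smul_eq_mul, mul_one]
  rw [← ENNReal.ofReal_add p.2.1 (by linarith [p.2.2])]
  simp

/-- one level of seeds -/
noncomputable abbrev P1 (d : ℕ) (p : unitInterval) : Measure (V d → Bool) :=
  Measure.infinitePi fun _ : V d => ber p

lemma measurableSet_A1 (ρ w : ℕ) (x : V d) : MeasurableSet {ω : V d → Bool | A1 ρ w ω x} := by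
  have h1 : {ω : V d → Bool | A1 ρ w ω x} =
      (⋃ c : V d, {ω : V d → Bool | ω c = true} ∩ {_ω | x - c ∈ bx d (ρ - w)}) ∩
        ⋂ c : V d, ({ω : V d → Bool | ω c = true} ∩ {_ω | x - c ∈ bx d (ρ + w)})ᶜ ∪
          {_ω | x - c ∈ bx d (ρ - w)} := by
    ext ω
    simp only [Set.mem_inter_iff, Set.mem_iUnion, Set.mem_iInter, Set.mem_union,
      Set.mem_compl_iff]
    constructor
    · rintro ⟨⟨c, hc, h1⟩, h2⟩
      refine ⟨⟨c, hc, h1⟩, fun c' => ?_⟩
      by_cases h : x - c' ∈ bx d (ρ - w)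
      · right; exact h
      · left
        rintro ⟨h3, h4⟩
        exact h (h2 c' h3 h4)
    · rintro ⟨⟨c, hc, h1⟩, h2⟩
      refine ⟨⟨c, hc, h1⟩, fun c' h3 h4 => ?_⟩
      rcases h2 c' with h | h
      · exact absurd ⟨h3, h4⟩ h
      · exact h
  have hm : ∀ c : V d, MeasurableSet {ω : V d → Bool | ω c = true} := fun c => by
    have h2 : Measurable fun ω : V d → Bool => ω c := measurable_pi_apply c
    exact h2 (measurableSet_singleton true)
  rw [h1]
  exact (MeasurableSet.iUnion fun c => (hm c).inter (MeasurableSet.const _)).inter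
    (MeasurableSet.iInter fun c =>
      ((hm c).inter (MeasurableSet.const _)).compl.union (MeasurableSet.const _))

lemma P1_false (p : unitInterval) (F : Finset (V d)) :
    P1 d p {ω | ∀ c ∈ F, ω c = false} = ENNReal.ofReal (1 - (p : ℝ)) ^ F.card := by
  have : {ω : V d → Bool | ∀ c ∈ F, ω c = false} = Set.pi (F : Set (V d)) (fun _ => {false}) := by
    ext ω
    simp only [Set.mem_pi, Finset.mem_coe, Set.mem_singleton_iff]
    rfl
  rw [this, Measure.infinitePi_pi _ (fun _ _ => measurableSet_singleton _)]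
  simp only [ber_false, Finset.prod_const]

lemma P1_true (p : unitInterval) (c : V d) :
    P1 d p {ω | ω c = true} = ENNReal.ofReal (p : ℝ) := by
  have : {ω : V d → Bool | ω c = true} = Set.pi (({c} : Finset (V d)) : Set (V d))
      (fun _ => {true}) := by
    ext ω
    simp only [Set.mem_pi, Finset.coe_singleton, Set.mem_singleton_iff, forall_eq]
    rfl
  rw [this, Measure.infinitePi_pi _ (fun _ _ => measurableSet_singleton _)]
  simp only [ber_true, Finset.prod_const, Finset.card_singleton, pow_one]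

lemma P1_bound (p : unitInterval) {ρ w : ℕ} (x : V d) :
    P1 d p {ω | ¬ A1 ρ w ω x} ≤ ENNReal.ofReal (1 - (p : ℝ)) ^ ((2 * (ρ - w) + 1) ^ d) +
      (((2 * (ρ + w) + 1) ^ d - (2 * (ρ - w) + 1) ^ d : ℕ) : ℝ≥0∞) * ENNReal.ofReal (p : ℝ) := by
  classical
  set B : Finset (V d) := (bx d (ρ - w)).image (fun u => x - u) with hB
  set S : Finset (V d) := (bx d (ρ + w) \ bx d (ρ - w)).image (fun u => x - u) with hS
  have hinj : Function.Injective (fun u : V d => x - u) := fun a b h => by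
    simpa using h
  have hsub : {ω : V d → Bool | ¬ A1 ρ w ω x} ⊆ {ω | ∀ c ∈ B, ω c = false} ∪
      ⋃ c ∈ S, {ω : V d → Bool | ω c = true} := by
    intro ω hω
    by_cases h1 : ∀ c ∈ B, ω c = false
    · left; exact h1
    · right
      push Not at h1
      obtain ⟨c, hc, hcω⟩ := h1
      rw [hB, Finset.mem_image] at hc
      obtain ⟨u, hu, rfl⟩ := hc
      have hω' : ¬ A1 ρ w ω x := hω
      unfold A1 at hω'
      rw [not_and_or] at hω'
      rcases hω' with h | h
      · exfalso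
        apply h
        refine ⟨x - u, by simpa using hcω, ?_⟩
        rw [sub_sub_cancel]; exact hu
      · push Not at h
        obtain ⟨c, hc1, hc2, hc3⟩ := h
        simp only [Set.mem_iUnion]
        refine ⟨c, ?_, hc1⟩
        rw [hS, Finset.mem_image]
        exact ⟨x - c, Finset.mem_sdiff.2 ⟨hc2, hc3⟩, by rw [sub_sub_cancel]⟩
  have hBc : B.card = (2 * (ρ - w) + 1) ^ d := by
    rw [hB, Finset.card_image_of_injective _ hinj, card_bx]
  have hSc : S.card = (2 * (ρ + w) + 1) ^ d - (2 * (ρ - w) + 1) ^ d := by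
    rw [hS, Finset.card_image_of_injective _ hinj,
      Finset.card_sdiff_of_subset (fun u hu => bx_mono (by omega) hu), card_bx, card_bx]
  refine (measure_mono hsub).trans ((measure_union_le _ _).trans ?_)
  rw [P1_false, hBc]
  gcongr
  refine (measure_biUnion_finset_le _ _).trans ?_
  simp only [P1_true, Finset.sum_const, nsmul_eq_mul]
  rw [hSc]

/-! ### The numerical estimate -/

lemma pow_diff (a b n : ℕ) (h : b ≤ a) : a ^ (n + 1) ≤ b ^ (n + 1) + (n + 1) * (a - b) * a ^ n := by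
  obtain ⟨k, rfl⟩ := Nat.exists_eq_add_of_le h
  rw [Nat.add_sub_cancel_left]
  induction n with
  | zero => simp
  | succ n ih =>
    have h1 : b ^ (n + 1) ≤ (b + k) ^ (n + 1) := Nat.pow_le_pow_left (by omega) _
    calc (b + k) ^ (n + 1 + 1) = (b + k) ^ (n + 1) * (b + k) := pow_succ _ _
      _ ≤ (b ^ (n + 1) + (n + 1) * k * (b + k) ^ n) * (b + k) := Nat.mul_le_mul_right _ ih
      _ = b ^ (n + 1 + 1) + b ^ (n + 1) * k + (n + 1) * k * (b + k) ^ (n + 1) := by ring
      _ ≤ b ^ (n + 1 + 1) + (b + k) ^ (n + 1) * k + (n + 1) * k * (b + k) ^ (n + 1) := by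
          gcongr
      _ = _ := by ring

lemma shell_bound {M : ℕ} (hM : 48 ≤ M) (n e : ℕ) :
    M * ((2 * (rho M n + ww M n) + 1) ^ (e + 1) - (2 * (rho M n - ww M n) + 1) ^ (e + 1)) ≤
      108 * (e + 1) * 5 ^ e * rho M n ^ (e + 1) := by
  have hw := ww_le hM n
  have hwb := ww_bound hM n
  have hr : 1 ≤ rho M n := Nat.one_le_pow _ _ (by omega)
  set ρ := rho M n
  set w := ww M n
  have h1 := pow_diff (2 * (ρ + w) + 1) (2 * (ρ - w) + 1) e (by omega)
  have h2 : 2 * (ρ + w) + 1 - (2 * (ρ - w) + 1) = 4 * w := by omega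
  rw [h2] at h1
  have h3 : (2 * (ρ + w) + 1) ^ e ≤ (5 * ρ) ^ e := Nat.pow_le_pow_left (by omega) _
  have h4 : (2 * (ρ + w) + 1) ^ (e + 1) - (2 * (ρ - w) + 1) ^ (e + 1) ≤
      (e + 1) * (4 * w) * (5 * ρ) ^ e := by
    have : (e + 1) * (4 * w) * (2 * (ρ + w) + 1) ^ e ≤ (e + 1) * (4 * w) * (5 * ρ) ^ e :=
      Nat.mul_le_mul_left _ h3
    omega
  calc M * ((2 * (ρ + w) + 1) ^ (e + 1) - (2 * (ρ - w) + 1) ^ (e + 1))
      ≤ M * ((e + 1) * (4 * w) * (5 * ρ) ^ e) := Nat.mul_le_mul_left _ h4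
    _ = (M * w) * (4 * (e + 1) * (5 * ρ) ^ e) := by ring
    _ ≤ (27 * ρ) * (4 * (e + 1) * (5 * ρ) ^ e) := Nat.mul_le_mul_right _ hwb
    _ = _ := by rw [mul_pow]; ring

/-- the error per level -/
noncomputable def dl (e M : ℕ) : ℝ :=
  1 / (M : ℝ) + 108 * (e + 1) * 5 ^ e * (Real.log M / M)

lemma level_bound {M : ℕ} (hM : 54 ≤ M) (n e : ℕ) : ∃ p : unitInterval, ∀ x : V (e + 1),
    P1 (e + 1) p {ω | ¬ A1 (rho M n) (ww M n) ω x} ≤ ENNReal.ofReal (dl e M) := by
  have hM' : 48 ≤ M := by omega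
  have hw := ww_le hM' n
  have hwb := ww_bound hM' n
  have hr : 1 ≤ rho M n := Nat.one_le_pow _ _ (by omega)
  have hMr : M ≤ rho M n := by
    unfold rho; rw [pow_succ]
    have : 1 ≤ M ^ n := Nat.one_le_pow _ _ (by omega)
    nlinarith
  have hsh := shell_bound hM' n e
  set ρ := rho M n with hρ
  set w := ww M n with hww
  have hMpos : (0 : ℝ) < M := by
    have : 0 < M := by omega
    exact_mod_cast this
  have hρpos : (0 : ℝ) < ρ := by exact_mod_cast hr
  have hρp : (0 : ℝ) < (ρ : ℝ) ^ (e + 1) := by positivity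
  have hlog0 : 0 ≤ Real.log M := Real.log_nonneg (by
    have : 1 ≤ M := by omega
    exact_mod_cast this)
  have hlogM : Real.log M ≤ M := (Real.log_le_sub_one_of_pos hMpos).trans (by linarith)
  have hMρ : (M : ℝ) ≤ (ρ : ℝ) ^ (e + 1) := by
    have h1 : (M : ℕ) ≤ ρ ^ (e + 1) := hMr.trans (Nat.le_self_pow (Nat.succ_ne_zero e) ρ)
    exact_mod_cast h1
  have hp1 : Real.log M / (ρ : ℝ) ^ (e + 1) ≤ 1 := by
    rw [div_le_one hρp]; linarith
  refine ⟨⟨Real.log M / (ρ : ℝ) ^ (e + 1), by positivity, hp1⟩, fun x => ?_⟩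
  refine (P1_bound _ x).trans ?_
  set p : ℝ := Real.log M / (ρ : ℝ) ^ (e + 1) with hp
  show ENNReal.ofReal (1 - p) ^ ((2 * (ρ - w) + 1) ^ (e + 1)) +
      (((2 * (ρ + w) + 1) ^ (e + 1) - (2 * (ρ - w) + 1) ^ (e + 1) : ℕ) : ℝ≥0∞) *
        ENNReal.ofReal p ≤ ENNReal.ofReal (dl e M)
  have hp0 : 0 ≤ p := by positivity
  unfold dl
  rw [ENNReal.ofReal_add (by positivity) (by positivity)]
  apply add_le_add
  · rw [← ENNReal.ofReal_pow (by linarith)]
    apply ENNReal.ofReal_le_ofReal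
    have h2w : 2 * w ≤ ρ := by
      have : 54 * w ≤ M * w := Nat.mul_le_mul_right _ hM
      omega
    have hcard : ρ ^ (e + 1) ≤ (2 * (ρ - w) + 1) ^ (e + 1) := Nat.pow_le_pow_left (by omega) _
    have h1 : (1 - p) ^ ((2 * (ρ - w) + 1) ^ (e + 1)) ≤ (1 - p) ^ (ρ ^ (e + 1)) :=
      pow_le_pow_of_le_one (by linarith) (by linarith) hcard
    have h2 : (1 - p) ^ (ρ ^ (e + 1)) ≤ (Real.exp (-p)) ^ (ρ ^ (e + 1)) :=
      pow_le_pow_left₀ (by linarith) (by linarith [Real.add_one_le_exp (-p)]) _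
    have h3 : (Real.exp (-p)) ^ (ρ ^ (e + 1)) = 1 / (M : ℝ) := by
      rw [← Real.exp_nat_mul]
      have : ((ρ ^ (e + 1) : ℕ) : ℝ) * -p = - Real.log M := by
        rw [hp]
        push_cast
        field_simp
      rw [this, Real.exp_neg, Real.exp_log hMpos, one_div]
    linarith
  · rw [← ENNReal.ofReal_natCast, ← ENNReal.ofReal_mul (Nat.cast_nonneg _)]
    apply ENNReal.ofReal_le_ofReal
    have h1 : (M : ℝ) * (((2 * (ρ + w) + 1) ^ (e + 1) - (2 * (ρ - w) + 1) ^ (e + 1) : ℕ) : ℝ) ≤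
        108 * (e + 1) * 5 ^ e * (ρ : ℝ) ^ (e + 1) := by exact_mod_cast hsh
    set Q : ℝ := (((2 * (ρ + w) + 1) ^ (e + 1) - (2 * (ρ - w) + 1) ^ (e + 1) : ℕ) : ℝ)
    rw [hp]
    have h2 : Q * (Real.log M / (ρ : ℝ) ^ (e + 1)) =
        (M * Q) * (Real.log M / (M * (ρ : ℝ) ^ (e + 1))) := by
      field_simp
    have h3 : 108 * ((e : ℝ) + 1) * 5 ^ e * (Real.log M / M) =
        (108 * ((e : ℝ) + 1) * 5 ^ e * (ρ : ℝ) ^ (e + 1)) *
          (Real.log M / (M * (ρ : ℝ) ^ (e + 1))) := by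
      field_simp
    rw [h2, h3]
    exact mul_le_mul_of_nonneg_right h1 (by positivity)

lemma exists_M (e : ℕ) {α : ℝ} (hα : α < 1) : ∃ M : ℕ, 54 ≤ M ∧ (M : ℝ) ^ α * dl e M < 1 := by
  have h1 : Filter.Tendsto (fun x : ℝ => x ^ (-(1 - α))) Filter.atTop (nhds 0) :=
    tendsto_rpow_neg_atTop (by linarith)
  have h2 : Filter.Tendsto (fun x : ℝ => Real.log x / x ^ (1 - α)) Filter.atTop (nhds 0) :=
    (isLittleO_log_rpow_atTop (by linarith)).tendsto_div_nhds_zero
  have h3 : Filter.Tendsto (fun x : ℝ => x ^ (-(1 - α)) + 108 * (e + 1) * 5 ^ e *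
      (Real.log x / x ^ (1 - α))) Filter.atTop (nhds (0 + 108 * (e + 1) * 5 ^ e * 0)) :=
    h1.add (h2.const_mul _)
  rw [mul_zero, add_zero] at h3
  have h4 := (h3.comp tendsto_natCast_atTop_atTop).eventually (gt_mem_nhds one_pos)
  obtain ⟨M, hM1, hM2⟩ := (h4.and (Filter.eventually_ge_atTop 54)).exists
  refine ⟨M, hM2, ?_⟩
  have hMpos : (0 : ℝ) < M := by
    have : 0 < M := by omega
    exact_mod_cast this
  refine lt_of_eq_of_lt ?_ hM1
  show (M : ℝ) ^ α * dl e M = (M : ℝ) ^ (-(1 - α)) + 108 * (e + 1) * 5 ^ e *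
      (Real.log M / (M : ℝ) ^ (1 - α))
  unfold dl
  have h5 : (M : ℝ) ^ (-(1 - α)) = (M : ℝ) ^ α / M := by
    rw [neg_sub, Real.rpow_sub hMpos, Real.rpow_one]
  have h6 : (M : ℝ) ^ (1 - α) = M / (M : ℝ) ^ α := by
    rw [Real.rpow_sub hMpos, Real.rpow_one]
  rw [h5, h6]
  have h7 : (0 : ℝ) < (M : ℝ) ^ α := Real.rpow_pos_of_pos hMpos α
  field_simp

end Pool.Agent.Y782.TC
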