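import Pool.Agent.Y782.TC.Contra
import Pool.Agent.Y782.TC.Lower

set_option autoImplicit false
open MeasureTheory
open scoped ENNReal

namespace Pool.Agent.Y782.TC

open Pool.Agent.Y782.FF

variable {d : ℕ} {T : Type*} [MeasurableSpace T] {ν : Measure T} [IsProbabilityMeasure ν]

lemma hyp_fL {f : (V d → T) → V d → Fin 3} (hf : Measurable f)
    (hsh : ∀ v : V d, ∀ᵐ y ∂(mq d ν), f (fun u => y (u + v)) = fun u => f y (u + v))
    (hpr : ∀ᵐ y ∂(mq d ν), Prp (f y)) (r : ℕ) :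
    Hyp ν (fL ν f 0 r) r (mq d ν (DL ν f r)) := by
  refine ⟨measurable_fL ν hf 0 r, fL_local ν f 0 r, f, hpr, fun v => ?_⟩
  have h0 : mq d ν {y | ¬ f (fun u => y (u + v)) = fun u => f y (u + v)} = 0 := ae_iff.1 (hsh v)
  have hm : MeasurableSet {y : V d → T | fL ν f 0 r y ≠ f y 0} :=
    (measurableSet_eq_fun (measurable_fL ν hf 0 r) (measurable_f0 hf)).compl
  have h1 := (mp_shq ν v).measure_preimage hm.nullMeasurableSet
  have hsub : {y : V d → T | ¬ fL ν f 0 r (ts v y) = f y v} ⊆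
      (ts v ⁻¹' {y : V d → T | fL ν f 0 r y ≠ f y 0}) ∪
        {y | ¬ f (fun u => y (u + v)) = fun u => f y (u + v)} := by
    intro y hy
    by_contra hcon
    rw [Set.mem_union, not_or] at hcon
    obtain ⟨hc1, hc2⟩ := hcon
    apply hy
    have e1 : fL ν f 0 r (ts v y) = f (ts v y) 0 := by
      by_contra h; exact hc1 h
    have e2 : f (fun u => y (u + v)) = fun u => f y (u + v) := by
      by_contra h; exact hc2 h
    rw [e1]
    have e3 := congrFun e2 0
    beta_reduce at e3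
    rw [zero_add] at e3
    exact e3
  refine (measure_mono hsub).trans ((measure_union_le _ _).trans ?_)
  rw [h0, add_zero, h1]
  exact fL_bad ν hf 0 r

/-- Lower tail bound. -/
theorem tail {i1 i2 : Fin d} (h12 : i1 ≠ i2) {f : (V d → T) → V d → Fin 3} (hf : Measurable f)
    (hsh : ∀ v : V d, ∀ᵐ y ∂(mq d ν), f (fun u => y (u + v)) = fun u => f y (u + v))
    (hpr : ∀ᵐ y ∂(mq d ν), Prp (f y)) (r : ℕ) :
    1 ≤ 504 * ((2 * r + 1 : ℕ) : ℝ≥0∞) * mq d ν (DL ν f r) :=
  main_contra h12 (hyp_fL hf hsh hpr r)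

lemma sum_DL_le (f : (V d → T) → V d → Fin 3) (N : ℕ) (y : V d → T) :
    ∑ r ∈ Finset.range N, (DL ν f r).indicator (fun _ => (1 : ℝ≥0∞)) y ≤ RR f y := by
  classical
  unfold RR
  refine le_iInf₂ fun ρ hρ => ?_
  calc ∑ r ∈ Finset.range N, (DL ν f r).indicator (fun _ => (1 : ℝ≥0∞)) y
      ≤ ∑ r ∈ Finset.range N, (if r < ρ then 1 else 0) := by
        refine Finset.sum_le_sum fun r _ => ?_
        by_cases hy : y ∈ DL ν f r
        · have hlt : r < ρ := not_coded_of_DL ν hy hρ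
          rw [Set.indicator_of_mem hy, if_pos hlt]
        · rw [Set.indicator_of_notMem hy]; exact bot_le
    _ = (((Finset.range N).filter (· < ρ)).card : ℝ≥0∞) := by
        rw [Finset.sum_boole]
    _ ≤ (ρ : ℝ≥0∞) := by
        have h1 : ((Finset.range N).filter (· < ρ)).card ≤ (Finset.range ρ).card := by
          apply Finset.card_le_card
          intro r hr
          rw [Finset.mem_filter] at hr
          exact Finset.mem_range.2 hr.2
        rw [Finset.card_range] at h1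
        exact_mod_cast h1

/-- The first moment of the coding radius is infinite. -/
theorem first_moment {i1 i2 : Fin d} (h12 : i1 ≠ i2) {f : (V d → T) → V d → Fin 3}
    (hf : Measurable f)
    (hsh : ∀ v : V d, ∀ᵐ y ∂(mq d ν), f (fun u => y (u + v)) = fun u => f y (u + v))
    (hpr : ∀ᵐ y ∂(mq d ν), Prp (f y)) : ∫⁻ y, RR f y ∂(mq d ν) = ⊤ := by
  by_contra hne
  set C : ℝ≥0∞ := ∫⁻ y, RR f y ∂(mq d ν) with hC
  have hb : ∀ N : ℕ, ∑ r ∈ Finset.range N, mq d ν (DL ν f r) ≤ C := by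
    intro N
    calc ∑ r ∈ Finset.range N, mq d ν (DL ν f r)
        = ∑ r ∈ Finset.range N, ∫⁻ y, (DL ν f r).indicator (fun _ => (1 : ℝ≥0∞)) y ∂(mq d ν) := by
          refine Finset.sum_congr rfl fun r _ => ?_
          rw [lintegral_indicator_const (measurableSet_DL ν hf r), one_mul]
      _ = ∫⁻ y, ∑ r ∈ Finset.range N, (DL ν f r).indicator (fun _ => (1 : ℝ≥0∞)) y ∂(mq d ν) := by
          rw [lintegral_finsetSum]
          intro r _
          exact measurable_const.indicator (measurableSet_DL ν hf r)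
      _ ≤ C := lintegral_mono fun y => sum_DL_le f N y
  have hr : ∀ r : ℕ, ENNReal.ofReal (1 / 1008 * (1 / ((r : ℝ) + 1))) ≤ mq d ν (DL ν f r) := by
    intro r
    have h1 := tail h12 hf hsh hpr r
    have h2 : (1 : ℝ≥0∞) ≤ ENNReal.ofReal (1008 * ((r : ℝ) + 1)) * mq d ν (DL ν f r) := by
      refine h1.trans ?_
      gcongr
      have e : (504 : ℝ≥0∞) * ((2 * r + 1 : ℕ) : ℝ≥0∞) =
          ENNReal.ofReal (504 * (2 * (r : ℝ) + 1)) := by
        rw [ENNReal.ofReal_mul (by norm_num)]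
        congr 1
        · simp
        · rw [← ENNReal.ofReal_natCast]
          push_cast
          rfl
      rw [e]
      apply ENNReal.ofReal_le_ofReal
      linarith
    have hpos : (0 : ℝ) < 1008 * ((r : ℝ) + 1) := by positivity
    have h3 : ENNReal.ofReal (1 / 1008 * (1 / ((r : ℝ) + 1))) =
        (ENNReal.ofReal (1008 * ((r : ℝ) + 1)))⁻¹ := by
      rw [← ENNReal.ofReal_inv_of_pos hpos]
      congr 1
      field_simp
    rw [h3]
    have h4 : ENNReal.ofReal (1008 * ((r : ℝ) + 1)) ≠ 0 := by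
      rw [ne_eq, ENNReal.ofReal_eq_zero, not_le]; exact hpos
    calc (ENNReal.ofReal (1008 * ((r : ℝ) + 1)))⁻¹
        = (ENNReal.ofReal (1008 * ((r : ℝ) + 1)))⁻¹ * 1 := (mul_one _).symm
      _ ≤ (ENNReal.ofReal (1008 * ((r : ℝ) + 1)))⁻¹ *
          (ENNReal.ofReal (1008 * ((r : ℝ) + 1)) * mq d ν (DL ν f r)) := by gcongr
      _ = mq d ν (DL ν f r) := by
          rw [← mul_assoc, ENNReal.inv_mul_cancel h4 ENNReal.ofReal_ne_top, one_mul]
  have hsum : ∀ N : ℕ, 1 / 1008 * ∑ r ∈ Finset.range N, (1 / ((r : ℝ) + 1)) ≤ C.toReal := by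
    intro N
    have h1 : ENNReal.ofReal (1 / 1008 * ∑ r ∈ Finset.range N, (1 / ((r : ℝ) + 1))) ≤ C := by
      rw [Finset.mul_sum, ENNReal.ofReal_sum_of_nonneg (fun r _ => by positivity)]
      exact (Finset.sum_le_sum fun r _ => hr r).trans (hb N)
    exact (ENNReal.ofReal_le_iff_le_toReal hne).1 h1
  have htend := Real.tendsto_sum_range_one_div_nat_succ_atTop
  obtain ⟨N, hN⟩ := (htend.eventually (Filter.eventually_gt_atTop (1008 * C.toReal))).exists
  have := hsum N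
  linarith

lemma le_one_add_rpow {a : ℝ≥0∞} {α : ℝ} (h : 1 ≤ α) : a ≤ 1 + a ^ α := by
  rcases le_total a 1 with h1 | h1
  · exact h1.trans le_self_add
  · calc a = a ^ (1 : ℝ) := (ENNReal.rpow_one a).symm
      _ ≤ a ^ α := ENNReal.rpow_le_rpow_of_exponent_le h1 h
      _ ≤ _ := le_add_self

/-- No moment of order at least one. -/
theorem no_moment {i1 i2 : Fin d} (h12 : i1 ≠ i2) {f : (V d → T) → V d → Fin 3}
    (hf : Measurable f)
    (hsh : ∀ v : V d, ∀ᵐ y ∂(mq d ν), f (fun u => y (u + v)) = fun u => f y (u + v))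
    (hpr : ∀ᵐ y ∂(mq d ν), Prp (f y)) {α : ℝ} (hα : 1 ≤ α)
    (hmom : ∫⁻ y, RR f y ^ α ∂(mq d ν) < ⊤) : False := by
  have h1 := first_moment h12 hf hsh hpr
  have h2 : ∫⁻ y, RR f y ∂(mq d ν) ≤ 1 + ∫⁻ y, RR f y ^ α ∂(mq d ν) := by
    calc ∫⁻ y, RR f y ∂(mq d ν) ≤ ∫⁻ y, (1 + RR f y ^ α) ∂(mq d ν) :=
          lintegral_mono fun y => le_one_add_rpow hα
      _ = 1 + ∫⁻ y, RR f y ^ α ∂(mq d ν) := by
          rw [lintegral_add_left measurable_const, lintegral_const, measure_univ, one_mul]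
  rw [h1] at h2
  have h3 : (1 : ℝ≥0∞) + ∫⁻ y, RR f y ^ α ∂(mq d ν) < ⊤ :=
    ENNReal.add_lt_top.2 ⟨ENNReal.one_lt_top, hmom⟩
  exact absurd h3 (not_lt.2 h2)

end Pool.Agent.Y782.TC
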