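import Pool.Agent.Y782.FF.Rounds

set_option autoImplicit false
open Relation

namespace Pool.Agent.Y782.TC

open Pool.Agent.Y782.FF

variable {d : ℕ}

/-! ### Scales -/

def rho (M n : ℕ) : ℕ := M ^ (n + 1)

def Dm (M : ℕ) : ℕ → ℕ
  | 0 => 0
  | n + 1 => 6 * Dm M n + 48 + 4 * rho M n

def ww (M n : ℕ) : ℕ := 2 * Dm M n + 15

def kap (M : ℕ) : ℕ → ℕ
  | 0 => 0
  | n + 1 => kap M n + Dm M n + rho M n + ww M n + 9

lemma Dm_succ (M n : ℕ) : Dm M (n + 1) = 6 * Dm M n + 48 + 4 * rho M n := rfl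

lemma rho_succ (M n : ℕ) : rho M (n + 1) = M * rho M n := by
  unfold rho; rw [pow_succ]; ring

lemma Dm_bound {M : ℕ} (hM : 48 ≤ M) (n : ℕ) : M * Dm M n ≤ 6 * rho M n := by
  induction n with
  | zero => simp [Dm]
  | succ n ih =>
    rw [rho_succ]
    have h1 : 1 ≤ rho M n := Nat.one_le_pow _ _ (by omega)
    have h2 : 48 ≤ rho M n := by
      unfold rho
      rw [pow_succ]
      have : 1 ≤ M ^ n := Nat.one_le_pow _ _ (by omega)
      nlinarith
    have h3 : Dm M (n + 1) = 6 * Dm M n + 48 + 4 * rho M n := rfl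
    have h4 : 48 * Dm M n ≤ 6 * rho M n := le_trans (Nat.mul_le_mul_right _ hM) ih
    have h5 : Dm M (n + 1) ≤ 6 * rho M n := by omega
    calc M * Dm M (n + 1) ≤ M * (6 * rho M n) := Nat.mul_le_mul_left _ h5
      _ = 6 * (M * rho M n) := by ring

lemma ww_bound {M : ℕ} (hM : 48 ≤ M) (n : ℕ) : M * ww M n ≤ 27 * rho M n := by
  have h1 := Dm_bound hM n
  have h2 : M ≤ rho M n := by
    unfold rho
    rw [pow_succ]
    have : 1 ≤ M ^ n := Nat.one_le_pow _ _ (by omega)
    nlinarith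
  unfold ww
  nlinarith

lemma ww_le {M : ℕ} (hM : 48 ≤ M) (n : ℕ) : ww M n ≤ rho M n := by
  have h := ww_bound hM n
  have h2 : 48 * ww M n ≤ M * ww M n := Nat.mul_le_mul_right _ hM
  omega

lemma kap_bound {M : ℕ} (hM : 48 ≤ M) (n : ℕ) : M * kap M n ≤ 5 * rho M n := by
  induction n with
  | zero => simp [kap]
  | succ n ih =>
    rw [rho_succ]
    have h2 : M ≤ rho M n := by
      unfold rho
      rw [pow_succ]
      have : 1 ≤ M ^ n := Nat.one_le_pow _ _ (by omega)
      nlinarith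
    have h3 : kap M (n + 1) = kap M n + Dm M n + rho M n + ww M n + 9 := rfl
    have h4 : 48 * kap M n ≤ 5 * rho M n := le_trans (Nat.mul_le_mul_right _ hM) ih
    have h5 : 48 * Dm M n ≤ 6 * rho M n := le_trans (Nat.mul_le_mul_right _ hM) (Dm_bound hM n)
    have h6 : 48 * ww M n ≤ 27 * rho M n := le_trans (Nat.mul_le_mul_right _ hM) (ww_bound hM n)
    have h7 : kap M (n + 1) ≤ 5 * rho M n := by omega
    calc M * kap M (n + 1) ≤ M * (5 * rho M n) := Nat.mul_le_mul_left _ h7
      _ = 5 * (M * rho M n) := by ring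

/-! ### Raw pieces -/

/-- seed configurations -/
abbrev Sd (d : ℕ) : Type := ℕ → V d → Bool

/-- deep inside or far outside every cube, and inside at least one -/
def Aset (M : ℕ) (s : Sd d) (n : ℕ) (v : V d) : Prop :=
  (∃ c, s n c = true ∧ v - c ∈ bx d (rho M n - ww M n)) ∧
    ∀ c, s n c = true → v - c ∈ bx d (rho M n + ww M n) → v - c ∈ bx d (rho M n - ww M n)

/-- same signature -/
def Same (M : ℕ) (s : Sd d) (n : ℕ) (a a' : V d) : Prop :=
  ∀ c, s n c = true → (a - c ∈ bx d (rho M n - ww M n) ↔ a' - c ∈ bx d (rho M n - ww M n))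

lemma Same.symm {M : ℕ} {s : Sd d} {n : ℕ} {a a' : V d} (h : Same M s n a a') :
    Same M s n a' a := fun c hc => (h c hc).symm

lemma Same.trans {M : ℕ} {s : Sd d} {n : ℕ} {a a' a'' : V d} (h : Same M s n a a')
    (h' : Same M s n a' a'') : Same M s n a a'' := fun c hc => (h c hc).trans (h' c hc)

lemma Same.refl (M : ℕ) (s : Sd d) (n : ℕ) (a : V d) : Same M s n a a := fun _ _ => Iff.rfl

lemma same_of_close {M : ℕ} (hM : 48 ≤ M) {s : Sd d} {n : ℕ} {a a' : V d} (ha : Aset M s n a)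
    (ha' : Aset M s n a') (h : a - a' ∈ bx d (2 * ww M n)) : Same M s n a a' := by
  have hw := ww_le hM n
  intro c hc
  constructor
  · intro h1
    apply ha'.2 c hc
    have : a' - c = (a - c) + -(a - a') := by abel
    rw [this]
    exact bx_mono (by omega) (bx_add h1 (bx_neg h))
  · intro h1
    apply ha.2 c hc
    have : a - c = (a' - c) + (a - a') := by abel
    rw [this]
    exact bx_mono (by omega) (bx_add h1 h)

lemma same_diam {M : ℕ} {s : Sd d} {n : ℕ} {a a' : V d} (ha : Aset M s n a)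
    (h : Same M s n a a') : a - a' ∈ bx d (2 * rho M n) := by
  obtain ⟨c, hc, h1⟩ := ha.1
  have h2 := (h c hc).1 h1
  have : a - a' = (a - c) - (a' - c) := by abel
  rw [this]
  exact bx_mono (by omega) (bx_sub h1 h2)

/-! ### The covered sets -/

def stp (K : V d → Prop) (x z : V d) : Prop := K x ∧ K z ∧ z - x ∈ bx d 6

def KK (M : ℕ) (s : Sd d) : ℕ → V d → Prop
  | 0 => fun _ => False
  | n + 1 => fun x => KK M s n x ∨ ∃ g, x - g ∈ bx d 3 ∧ (Aset M s n g ∨
      (KK M s n g ∧ ∃ z a, ReflTransGen (stp (KK M s n)) g z ∧ z - a ∈ bx d 6 ∧ Aset M s n a))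

/-- the new part -/
def QQ (M : ℕ) (s : Sd d) (n : ℕ) (x : V d) : Prop :=
  ∃ g, x - g ∈ bx d 3 ∧ (Aset M s n g ∨
      (KK M s n g ∧ ∃ z a, ReflTransGen (stp (KK M s n)) g z ∧ z - a ∈ bx d 6 ∧ Aset M s n a))

lemma KK_succ {M : ℕ} {s : Sd d} {n : ℕ} {x : V d} :
    KK M s (n + 1) x ↔ KK M s n x ∨ QQ M s n x := Iff.rfl

lemma KK_mono {M : ℕ} {s : Sd d} {n m : ℕ} (h : n ≤ m) {x : V d} (hx : KK M s n x) :
    KK M s m x := by
  induction m, h using Nat.le_induction with
  | base => exact hx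
  | succ m _ ih => exact Or.inl ih

lemma KK_of_Aset {M : ℕ} {s : Sd d} {n : ℕ} {x : V d} (h : Aset M s n x) : KK M s (n + 1) x :=
  Or.inr ⟨x, by rw [sub_self]; exact zero_mem_bx, Or.inl h⟩

lemma stp_symm {K : V d → Prop} {x z : V d} (h : stp K x z) : stp K z x :=
  ⟨h.2.1, h.1, by rw [← neg_sub]; exact bx_neg h.2.2⟩

lemma chain_symm {K : V d → Prop} {x z : V d} (h : ReflTransGen (stp K) x z) :
    ReflTransGen (stp K) z x := by
  induction h with
  | refl => exact ReflTransGen.refl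
  | tail _ hbc ih => exact ReflTransGen.head (stp_symm hbc) ih

lemma chain_mem {K : V d → Prop} {x z : V d} (h : ReflTransGen (stp K) x z) (hx : K x) : K z := by
  induction h with
  | refl => exact hx
  | tail _ hbc _ => exact hbc.2.1

/-- diameter bound for chains -/
def Diam (M : ℕ) (s : Sd d) (n : ℕ) : Prop :=
  ∀ x z, ReflTransGen (stp (KK M s n)) x z → z - x ∈ bx d (Dm M n)

lemma QQ_near {M : ℕ} {s : Sd d} {n : ℕ} (hD : Diam M s n) {x : V d} (h : QQ M s n x) :
    ∃ a, Aset M s n a ∧ x - a ∈ bx d (Dm M n + 9) := by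
  obtain ⟨g, hg, h | ⟨_, z, a, hz, hza, ha⟩⟩ := h
  · exact ⟨g, h, bx_mono (by omega) hg⟩
  · refine ⟨a, ha, ?_⟩
    have : x - a = (x - g) + -(z - g) + (z - a) := by abel
    rw [this]
    exact bx_mono (by omega) (bx_add (bx_add hg (bx_neg (hD g z hz))) hza)

lemma far_of_QQ {M : ℕ} (hM : 48 ≤ M) {s : Sd d} {n : ℕ} (hD : Diam M s n) {x z : V d}
    (hx : QQ M s n x) (h : ReflTransGen (stp (KK M s (n + 1))) x z) :
    z - x ∈ bx d (3 * Dm M n + 24 + 2 * rho M n) := by
  obtain ⟨a0, ha0, hxa0⟩ := QQ_near hD hx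
  have hinv : ∃ a, Aset M s n a ∧ Same M s n a0 a ∧ (z - a ∈ bx d (Dm M n + 9) ∨
      (KK M s n z ∧ ∃ t, ReflTransGen (stp (KK M s n)) t z ∧ t - a ∈ bx d (Dm M n + 15))) := by
    induction h with
    | refl => exact ⟨a0, ha0, Same.refl _ _ _ _, Or.inl hxa0⟩
    | @tail b c _ hbc ih =>
      obtain ⟨a, ha, hsame, hb⟩ := ih
      have hba : b - a ∈ bx d (2 * Dm M n + 15) := by
        rcases hb with hb | ⟨_, t, ht, hta⟩
        · exact bx_mono (by omega) hb
        · have : b - a = (b - t) + (t - a) := by abel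
          rw [this]
          exact bx_mono (by omega) (bx_add (hD t b ht) hta)
      by_cases hc : QQ M s n c
      · obtain ⟨a', ha', hca'⟩ := QQ_near hD hc
        refine ⟨a', ha', hsame.trans (same_of_close hM ha ha' ?_), Or.inl hca'⟩
        have : a - a' = -(b - a) + -(c - b) + (c - a') := by abel
        rw [this]
        unfold ww
        exact bx_mono (by omega) (bx_add (bx_add (bx_neg hba) (bx_neg hbc.2.2)) hca')
      · have hcK : KK M s n c := (KK_succ.1 hbc.2.1).resolve_right hc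
        refine ⟨a, ha, hsame, Or.inr ⟨hcK, ?_⟩⟩
        rcases hb with hb | ⟨hbK, t, ht, hta⟩
        · refine ⟨c, ReflTransGen.refl, ?_⟩
          have : c - a = (c - b) + (b - a) := by abel
          rw [this]
          exact bx_mono (by omega) (bx_add hbc.2.2 hb)
        · exact ⟨t, ReflTransGen.tail ht ⟨hbK, hcK, hbc.2.2⟩, hta⟩
  obtain ⟨a, ha, hsame, hz⟩ := hinv
  have hza : z - a ∈ bx d (2 * Dm M n + 15) := by
    rcases hz with hb | ⟨_, t, ht, hta⟩
    · exact bx_mono (by omega) hb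
    · have : z - a = (z - t) + (t - a) := by abel
      rw [this]
      exact bx_mono (by omega) (bx_add (hD t z ht) hta)
  have : z - x = (z - a) + -(a0 - a) + -(x - a0) := by abel
  rw [this]
  exact bx_mono (by omega) (bx_add (bx_add hza (bx_neg (same_diam ha0 hsame))) (bx_neg hxa0))

lemma chain_split {M : ℕ} {s : Sd d} {n : ℕ} {x z : V d}
    (h : ReflTransGen (stp (KK M s (n + 1))) x z) :
    ReflTransGen (stp (KK M s n)) x z ∨ ∃ q, QQ M s n q ∧
      ReflTransGen (stp (KK M s (n + 1))) q x ∧ ReflTransGen (stp (KK M s (n + 1))) q z := by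
  induction h with
  | refl => exact Or.inl ReflTransGen.refl
  | @tail b c hxb hbc ih =>
    rcases ih with ih | ⟨q, hq, h1, h2⟩
    · by_cases hb : QQ M s n b
      · right
        exact ⟨b, hb, chain_symm hxb, ReflTransGen.single hbc⟩
      · by_cases hc : QQ M s n c
        · right
          exact ⟨c, hc, chain_symm (ReflTransGen.tail hxb hbc), ReflTransGen.refl⟩
        · left
          exact ReflTransGen.tail ih ⟨(KK_succ.1 hbc.1).resolve_right hb,
            (KK_succ.1 hbc.2.1).resolve_right hc, hbc.2.2⟩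
    · right
      exact ⟨q, hq, h1, ReflTransGen.tail h2 hbc⟩

theorem diam_all {M : ℕ} (hM : 48 ≤ M) (s : Sd d) (n : ℕ) : Diam M s n := by
  induction n with
  | zero =>
    intro x z h
    induction h with
    | refl => rw [sub_self]; exact zero_mem_bx
    | tail _ hbc _ => exact hbc.1.elim
  | succ n ih =>
    intro x z h
    rcases chain_split h with h1 | ⟨q, hq, h1, h2⟩
    · have hle : Dm M n ≤ Dm M (n + 1) := by rw [Dm_succ]; omega
      have h2 : z - x ∈ bx d (Dm M n) := ih x z h1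
      exact bx_mono hle h2
    · have e1 := far_of_QQ hM ih hq h1
      have e2 := far_of_QQ hM ih hq h2
      have h3 : z - x = (z - q) + -(x - q) := by abel
      have hle : 3 * Dm M n + 24 + 2 * rho M n + (3 * Dm M n + 24 + 2 * rho M n) ≤
          Dm M (n + 1) := by rw [Dm_succ]; omega
      rw [h3]
      exact bx_mono hle (bx_add e2 (bx_neg e1))

/-- The key separation property: near a new point, the old points get a collar. -/
lemma collar {M : ℕ} {s : Sd d} {n : ℕ} {x u v : V d} (hx : KK M s (n + 1) x)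
    (hx' : ¬ KK M s n x) (hu : KK M s n u) (hux : u - x ∈ bx d 3) (hv : v - u ∈ bx d 3) :
    KK M s (n + 1) v := by
  obtain ⟨g, hg, hcase⟩ := (KK_succ.1 hx).resolve_left hx'
  have hug : u - g ∈ bx d 6 := by
    have : u - g = (u - x) + (x - g) := by abel
    rw [this]; exact bx_mono (by norm_num) (bx_add hux hg)
  refine KK_succ.2 (Or.inr ?_)
  unfold QQ
  refine ⟨u, hv, Or.inr ⟨hu, ?_⟩⟩
  rcases hcase with hA | ⟨hgK, z, a, hz, hza, ha⟩
  · exact ⟨u, g, ReflTransGen.refl, hug, hA⟩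
  · refine ⟨z, a, ReflTransGen.head ⟨hu, hgK, ?_⟩ hz, hza, ha⟩
    rw [← neg_sub]; exact bx_neg hug

end Pool.Agent.Y782.TC
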